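import Pool.Agent.Helper77.GS.Defs

/-!
# GS: algebraic closure and rank of sets
-/

set_option autoImplicit false

namespace Pool.Agent.GS

open AlgebraicIndependent

universe u

variable {k K : Type u} [Field k] [Field K] [Algebra k K]

theorem mem_cl {s : Set K} {a : K} : a ∈ cl k s ↔ IsAlgebraic (Algebra.adjoin k s) a := by
  unfold cl
  rw [matroid_closure_eq]
  exact Iff.rfl

theorem subset_cl (s : Set K) : s ⊆ cl k s := by
  unfold cl
  exact (matroid k K).subset_closure s (by simp)

theorem cl_mono {s t : Set K} (h : s ⊆ t) : cl k s ⊆ cl k t :=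
  (matroid k K).closure_subset_closure h

theorem cl_cl (s : Set K) : cl k (cl k s) = cl k s := by
  unfold cl
  exact (matroid k K).closure_closure s

theorem cl_subset {s t : Set K} (h : s ⊆ cl k t) : cl k s ⊆ cl k t := by
  have := cl_mono (k := k) h
  rwa [cl_cl] at this

theorem cl_mul {s : Set K} {a b : K} (ha : a ∈ cl k s) (hb : b ∈ cl k s) : a * b ∈ cl k s := by
  rw [mem_cl] at *
  exact ha.mul hb

theorem cl_add {s : Set K} {a b : K} (ha : a ∈ cl k s) (hb : b ∈ cl k s) : a + b ∈ cl k s := by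
  rw [mem_cl] at *
  exact ha.add hb

theorem cl_neg {s : Set K} {a : K} (ha : a ∈ cl k s) : -a ∈ cl k s := by
  rw [mem_cl] at *
  exact ha.neg

theorem cl_sub {s : Set K} {a b : K} (ha : a ∈ cl k s) (hb : b ∈ cl k s) : a - b ∈ cl k s := by
  rw [mem_cl] at *
  exact ha.sub hb

theorem cl_inv {s : Set K} {a : K} (ha : a ∈ cl k s) : a⁻¹ ∈ cl k s := by
  rw [mem_cl] at *
  exact IsAlgebraic.inv_iff.mpr ha

theorem cl_div {s : Set K} {a b : K} (ha : a ∈ cl k s) (hb : b ∈ cl k s) : a / b ∈ cl k s := by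
  rw [div_eq_mul_inv]
  exact cl_mul ha (cl_inv hb)

theorem cl_cst (s : Set K) (c : k) : algebraMap k K c ∈ cl k s := by
  rw [mem_cl]
  exact isAlgebraic_algebraMap (A := K) (algebraMap k (Algebra.adjoin k s) c)

theorem cl_zero (s : Set K) : (0 : K) ∈ cl k s := by
  have := cl_cst (k := k) s 0
  rwa [map_zero] at this

theorem cl_one (s : Set K) : (1 : K) ∈ cl k s := by
  have := cl_cst (k := k) s 1
  rwa [map_one] at this

theorem cl_sum {ι : Type*} {s : Set K} (t : Finset ι) (f : ι → K) (h : ∀ i ∈ t, f i ∈ cl k s) :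
    ∑ i ∈ t, f i ∈ cl k s := by
  classical
  induction t using Finset.induction_on with
  | empty => simpa using cl_zero s
  | insert a t ha ih =>
    rw [Finset.sum_insert ha]
    exact cl_add (h a (Finset.mem_insert_self a t)) (ih fun i hi => h i (Finset.mem_insert_of_mem hi))

theorem cl_zpow {s : Set K} {a : K} (ha : a ∈ cl k s) (n : ℤ) : a ^ n ∈ cl k s := by
  have h : ∀ n : ℕ, a ^ n ∈ cl k s := by
    intro n
    induction n with
    | zero =>
      rw [pow_zero]
      exact cl_one s
    | succ n ih =>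
      rw [pow_succ]
      exact cl_mul ih ha
  cases n with
  | ofNat n => rw [Int.ofNat_eq_natCast, zpow_natCast]; exact h n
  | negSucc n => rw [zpow_negSucc]; exact cl_inv (h _)

theorem rk_mono {s t : Set K} (h : s ⊆ t) : rk k s ≤ rk k t := (matroid k K).eRk_mono h

theorem rk_cl (s : Set K) : rk k (cl k s) = rk k s := (matroid k K).eRk_closure_eq s

theorem rk_le_of_subset {s t : Set K} (h : s ⊆ cl k t) : rk k s ≤ rk k t := by
  rw [← rk_cl t]
  exact rk_mono h

theorem rk_le_card (s : Set K) : rk k s ≤ s.encard := (matroid k K).eRk_le_encard s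

theorem rk_le_finset (s : Finset K) : rk k (s : Set K) ≤ s.card := by
  have := rk_le_card (k := k) (s : Set K)
  rwa [Set.encard_coe_eq_coe_finsetCard] at this

theorem rk_image_le {ι : Type*} (s : Finset ι) (f : ι → K) : rk k (f '' s) ≤ s.card := by
  refine (rk_le_card _).trans ?_
  refine (Set.encard_image_le f _).trans ?_
  rw [Set.encard_coe_eq_coe_finsetCard]

theorem indep_iff (s : Set K) : (matroid k K).Indep s ↔ AlgebraicIndependent k (fun x : s => (x : K)) := by
  rw [matroid_indep_iff]
  exact Iff.rfl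

theorem exists_basis (s : Set K) : ∃ b ⊆ s, AlgebraicIndependent k (fun x : b => (x : K)) ∧
    b.encard = rk k s := by
  obtain ⟨b, hb⟩ := (matroid k K).exists_isBasis s (by simp)
  exact ⟨b, hb.subset, (indep_iff b).mp hb.indep, hb.encard_eq_eRk⟩

theorem rk_of_algInd {ι : Type*} (f : ι → K) (h : AlgebraicIndependent k f) :
    rk k (Set.range f) = (Set.univ : Set ι).encard := by
  have h1 : (matroid k K).Indep (Set.range f) := by
    rw [indep_iff]
    exact h.coe_range
  unfold rk
  rw [h1.eRk_eq_encard, ← Set.image_univ, h.injective.encard_image]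

/-- residues of algebraically independent elements -/
theorem algInd_res (P : Pla k K) {ι : Type*} (f : ι → K) (h : AlgebraicIndependent k f)
    (hO : ∀ z ∈ cl k (Set.range f), z ∈ P.O) : AlgebraicIndependent k fun i => P.res (f i) := by
  have hf : ∀ i, f i ∈ P.O := fun i => hO _ (subset_cl _ ⟨i, rfl⟩)
  rw [algebraicIndependent_iff]
  intro p hp
  rw [← (P.res_aeval p f hf).2] at hp
  by_contra hp0
  have h1 : MvPolynomial.aeval f p ≠ 0 := fun h0 => hp0 ((algebraicIndependent_iff.mp h) p h0)
  have h2 : MvPolynomial.aeval f p ∈ cl k (Set.range f) := by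
    rw [mem_cl]
    have h3 : MvPolynomial.aeval f p ∈ Algebra.adjoin k (Set.range f) := by
      rw [Algebra.adjoin_range_eq_range_aeval]
      exact ⟨p, rfl⟩
    exact isAlgebraic_algebraMap (A := K) (⟨_, h3⟩ : Algebra.adjoin k (Set.range f))
  have h3 := hO _ (cl_inv h2)
  have h4 := hO _ h2
  have h5 : P.res (MvPolynomial.aeval f p * (MvPolynomial.aeval f p)⁻¹) = 1 := by
    rw [mul_inv_cancel₀ h1, P.res_one]
  rw [P.res_mul h4 h3, hp, zero_mul] at h5
  exact zero_ne_one h5

theorem rk_res (P : Pla k K) (s : Set K) (hO : ∀ z ∈ cl k s, z ∈ P.O) : rk k s ≤ rk k (P.res '' s) := by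
  obtain ⟨b, hbs, hb, hbr⟩ := exists_basis (k := k) s
  have h1 := algInd_res P (fun x : b => (x : K)) hb (by
    rw [Subtype.range_coe]
    exact fun z hz => hO z (cl_mono hbs hz))
  have h2 := rk_of_algInd _ h1
  rw [← hbr]
  have h3 : (Set.univ : Set b).encard = b.encard := by
    rw [Set.encard_univ, Set.encard]
  rw [← h3, ← h2]
  apply rk_mono
  rintro _ ⟨x, rfl⟩
  exact ⟨x, hbs x.2, rfl⟩

end Pool.Agent.GS
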