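import Mathlib

/-!
# GS (integral points of bounded degree, generic hyperplane sections): definitions

All fields are in one universe `u`. `I` is a set of homogeneous polynomials over the field `k` in the coordinates `Fin (N + 1)`; `X`
is the set of their zeros.
-/

set_option autoImplicit false

namespace Pool.Agent.GS

universe u

/-- `y` satisfies the equations of `X` -/
def OnX {k K : Type u} [Field k] [Field K] [Algebra k K] {N : ℕ} (I : Set (MvPolynomial (Fin (N + 1)) k))
    (y : Fin (N + 1) → K) : Prop := ∀ f ∈ I, MvPolynomial.aeval y f = 0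

/-- the equations are homogeneous -/
def Homog {k : Type u} [Field k] {N : ℕ} (I : Set (MvPolynomial (Fin (N + 1)) k)) : Prop :=
  ∀ f ∈ I, ∃ d, f.IsHomogeneous d

/-- value of a linear form over `k` -/
def lin {k K : Type u} [Field k] [Field K] [Algebra k K] {N : ℕ} (ℓ : Fin (N + 1) → k)
    (y : Fin (N + 1) → K) : K := ∑ j, algebraMap k K (ℓ j) * y j

/-- `z` is a constant -/
def Cst (k : Type u) {K : Type u} [Field k] [Field K] [Algebra k K] (z : K) : Prop :=
  ∃ a : k, z = algebraMap k K a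

/-- the ratios of the coordinates -/
def Rat {K : Type u} [Field K] {N : ℕ} (y : Fin (N + 1) → K) : Set K := {z | ∃ a b, z = y a / y b}

/-- transcendence degree over `k` of a set -/
noncomputable def rk (k : Type u) {K : Type u} [Field k] [Field K] [Algebra k K] (s : Set K) : ℕ∞ :=
  (AlgebraicIndependent.matroid k K).eRk s

/-- the elements algebraic over `k(s)` -/
def cl (k : Type u) {K : Type u} [Field k] [Field K] [Algebra k K] (s : Set K) : Set K :=
  (AlgebraicIndependent.matroid k K).closure s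

/-- `X` has dimension at most `n` -/
def Dim (k : Type u) [Field k] {N : ℕ} (I : Set (MvPolynomial (Fin (N + 1)) k)) (n : ℕ) : Prop :=
  ∀ (K : Type u) [Field K] [Algebra k K] (y : Fin (N + 1) → K), OnX I y → rk k (Rat y) ≤ n

/-- at most `n` of the hyperplanes meet at a point of `X` -/
def GP (k : Type u) [Field k] {N q : ℕ} (I : Set (MvPolynomial (Fin (N + 1)) k))
    (ℓ : Fin q → Fin (N + 1) → k) (n : ℕ) : Prop :=
  ∀ (K : Type u) [Field K] [Algebra k K] (y : Fin (N + 1) → K), OnX I y → y ≠ 0 →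
    ∀ s : Finset (Fin q), (∀ i ∈ s, lin (ℓ i) y = 0) → s.card ≤ n

/-- products over the points -/
def uu {k K : Type u} [Field k] [Field K] [Algebra k K] {N q r : ℕ} (ℓ : Fin q → Fin (N + 1) → k)
    (y : Fin r → Fin (N + 1) → K) (i : Fin q) : K := ∏ σ, lin (ℓ i) (y σ)

/-- the nonzero ones among the `u i` have multiplicative rank at most `t` modulo constants -/
def Rk (k : Type u) {K : Type u} [Field k] [Field K] [Algebra k K] {q : ℕ} (u : Fin q → K) (t : ℕ) : Prop :=
  ∀ e : Fin (t + 1) → Fin q → ℤ, (∀ b, ∑ i, e b i = 0) → (∀ b i, u i = 0 → e b i = 0) →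
    ∃ a : Fin (t + 1) → ℤ, a ≠ 0 ∧ Cst k (∏ i, u i ^ ∑ b, a b * e b i)

/-- the combinatorial conditions -/
structure Comb {q : ℕ} (n : ℕ) (A V : Finset (Fin q)) (ι : Fin q → Fin q) : Prop where
  card : A.card + 1 = n
  nonempty : V.Nonempty
  iA : ∀ i ∈ V, i ∉ A
  ιA : ∀ i ∈ V, ι i ∉ A
  VV : ∀ i ∈ V, ∀ j ∈ V, i ≠ ι j
  inj : ∀ i ∈ V, ∀ j ∈ V, ι i = ι j → i = j

/-- value of a linear form with coefficients in the same field -/
def dt {K : Type u} [Field K] {N : ℕ} (ℓ y : Fin (N + 1) → K) : K := ∑ j, ℓ j * y j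

/-- the data which do not exist for generic linear forms `ℓ i` over `K`: `c (ι m)`, `m ∈ V`, and for `i ∈ V` points `x i σ` of `X`,
the first one on the hyperplanes of `A ∪ {i}`, every hyperplane not in `ι(V)` meeting the `x i`, and `∏ σ, ℓ (ι m) (x i σ) = c (ι m) ≠ 0` -/
def Bad {k K : Type u} [Field k] [Field K] [Algebra k K] {N q : ℕ}
    (I : Set (MvPolynomial (Fin (N + 1)) k)) (r : ℕ) (A V : Finset (Fin q)) (ι : Fin q → Fin q)
    (ℓ : Fin q → Fin (N + 1) → K) : Prop :=
  ∃ (σ₀ : Fin r) (x : Fin q → Fin r → Fin (N + 1) → K) (c : Fin q → K),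
    (∀ i ∈ V, ∀ σ, OnX I (x i σ)) ∧
    (∀ i ∈ V, ∀ h ∈ insert i A, dt (ℓ h) (x i σ₀) = 0) ∧
    (∀ i ∈ V, ∀ g, (∀ j ∈ V, g ≠ ι j) → ∏ σ, dt (ℓ g) (x i σ) = 0) ∧
    (∀ i ∈ V, ∀ m ∈ V, ∏ σ, dt (ℓ (ι m)) (x i σ) = c (ι m)) ∧ ∀ m ∈ V, c (ι m) ≠ 0

/-- a place of `κ`, trivial on `F` -/
structure Pla (F κ : Type u) [Field F] [Field κ] [Algebra F κ] where
  O : ValuationSubring κ
  h : ∀ c : F, algebraMap F κ c ∈ O

namespace Pla

variable {F κ : Type u} [Field F] [Field κ] [Algebra F κ] (P : Pla F κ)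

/-- the residue field -/
def K : Type u := IsLocalRing.ResidueField P.O

noncomputable instance : Field P.K := inferInstanceAs (Field (IsLocalRing.ResidueField P.O))

/-- the residue map -/
noncomputable def r : P.O →+* P.K := IsLocalRing.residue P.O

noncomputable instance : Algebra F P.K :=
  (P.r.comp ((algebraMap F κ).codRestrict P.O.toSubring P.h)).toAlgebra

open Classical in
/-- the residue (zero outside the valuation ring) -/
noncomputable def res (z : κ) : P.K := if h : z ∈ P.O then P.r ⟨z, h⟩ else 0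

theorem res_of_mem {z : κ} (h : z ∈ P.O) : P.res z = P.r ⟨z, h⟩ := by
  unfold res
  rw [dif_pos h]

theorem res_add {z w : κ} (hz : z ∈ P.O) (hw : w ∈ P.O) : P.res (z + w) = P.res z + P.res w := by
  rw [P.res_of_mem hz, P.res_of_mem hw, P.res_of_mem (P.O.add_mem _ _ hz hw)]
  exact map_add P.r ⟨z, hz⟩ ⟨w, hw⟩

theorem res_mul {z w : κ} (hz : z ∈ P.O) (hw : w ∈ P.O) : P.res (z * w) = P.res z * P.res w := by
  rw [P.res_of_mem hz, P.res_of_mem hw, P.res_of_mem (P.O.mul_mem _ _ hz hw)]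
  exact map_mul P.r ⟨z, hz⟩ ⟨w, hw⟩

theorem res_cst (c : F) : P.res (algebraMap F κ c) = algebraMap F P.K c := by
  rw [P.res_of_mem (P.h c)]
  rfl

theorem res_zero : P.res 0 = 0 := by
  rw [P.res_of_mem P.O.zero_mem]
  exact map_zero P.r

theorem res_one : P.res 1 = 1 := by
  rw [P.res_of_mem P.O.one_mem]
  exact map_one P.r

theorem res_eq_zero {z : κ} (hz : z ∈ P.O) : P.res z = 0 ↔ P.O.valuation z < 1 := by
  rw [P.res_of_mem hz]
  show IsLocalRing.residue P.O ⟨z, hz⟩ = 0 ↔ _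
  rw [IsLocalRing.residue_eq_zero_iff]
  exact (P.O.valuation_lt_one_iff ⟨z, hz⟩)

theorem res_ne_zero {z : κ} (hz : z ∈ P.O) : P.res z ≠ 0 ↔ P.O.valuation z = 1 := by
  rw [Ne, P.res_eq_zero hz, not_lt]
  constructor
  · exact fun h => le_antisymm ((P.O.valuation_le_one_iff z).mpr hz) h
  · exact fun h => h.ge

theorem mem_sum {ι : Type*} (s : Finset ι) (f : ι → κ) (h : ∀ i ∈ s, f i ∈ P.O) : ∑ i ∈ s, f i ∈ P.O :=
  sum_mem h

theorem res_sum {ι : Type*} (s : Finset ι) (f : ι → κ) (h : ∀ i ∈ s, f i ∈ P.O) :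
    P.res (∑ i ∈ s, f i) = ∑ i ∈ s, P.res (f i) := by
  classical
  induction s using Finset.induction_on with
  | empty => simpa using P.res_zero
  | insert a s ha ih =>
    rw [Finset.sum_insert ha, Finset.sum_insert ha, P.res_add (h a (Finset.mem_insert_self a s))
      (P.mem_sum s f fun i hi => h i (Finset.mem_insert_of_mem hi)),
      ih fun i hi => h i (Finset.mem_insert_of_mem hi)]

theorem mem_prod {ι : Type*} (s : Finset ι) (f : ι → κ) (h : ∀ i ∈ s, f i ∈ P.O) : ∏ i ∈ s, f i ∈ P.O :=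
  prod_mem h

theorem res_prod {ι : Type*} (s : Finset ι) (f : ι → κ) (h : ∀ i ∈ s, f i ∈ P.O) :
    P.res (∏ i ∈ s, f i) = ∏ i ∈ s, P.res (f i) := by
  classical
  induction s using Finset.induction_on with
  | empty => simpa using P.res_one
  | insert a s ha ih =>
    rw [Finset.prod_insert ha, Finset.prod_insert ha, P.res_mul (h a (Finset.mem_insert_self a s))
      (P.mem_prod s f fun i hi => h i (Finset.mem_insert_of_mem hi)),
      ih fun i hi => h i (Finset.mem_insert_of_mem hi)]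

/-- polynomials -/
theorem res_aeval {σ : Type*} (f : MvPolynomial σ F) (y : σ → κ) (hy : ∀ a, y a ∈ P.O) :
    MvPolynomial.aeval y f ∈ P.O ∧
      P.res (MvPolynomial.aeval y f) = MvPolynomial.aeval (fun a => P.res (y a)) f := by
  induction f using MvPolynomial.induction_on with
  | C a =>
    rw [MvPolynomial.aeval_C, MvPolynomial.aeval_C]
    exact ⟨P.h a, P.res_cst a⟩
  | add p q hp hq =>
    rw [map_add, map_add, P.res_add hp.1 hq.1, hp.2, hq.2]
    exact ⟨P.O.add_mem _ _ hp.1 hq.1, rfl⟩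
  | mul_X p i hp =>
    rw [map_mul, map_mul, MvPolynomial.aeval_X, MvPolynomial.aeval_X, P.res_mul hp.1 (hy i), hp.2]
    exact ⟨P.O.mul_mem _ _ hp.1 (hy i), rfl⟩

end Pla

end Pool.Agent.GS
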