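import Pool.Agent.Helper77.GS.Defs

/-!
# GS, block R: reduction of a point
-/

set_option autoImplicit false

namespace Pool.Agent.GS

open MvPolynomial

universe u

variable {k K : Type u} [Field k] [Field K] [Algebra k K] {N : ℕ}

theorem lin_eq_dt (ℓ : Fin (N + 1) → k) (y : Fin (N + 1) → K) :
    lin ℓ y = dt (fun j => algebraMap k K (ℓ j)) y := rfl

theorem dt_div (ℓ y : Fin (N + 1) → K) (s : K) : dt ℓ y / s = ∑ a, ℓ a * (y a / s) := by
  unfold dt
  rw [Finset.sum_div]
  exact Finset.sum_congr rfl fun a _ => mul_div_assoc _ _ _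

theorem aeval_smul_homog (f : MvPolynomial (Fin (N + 1)) k) {d : ℕ} (hf : f.IsHomogeneous d)
    (y : Fin (N + 1) → K) (c : K) : aeval (fun a => c * y a) f = c ^ d * aeval y f := by
  rw [aeval_def, aeval_def, eval₂_eq', eval₂_eq', Finset.mul_sum]
  refine Finset.sum_congr rfl fun m hm => ?_
  have h1 : ∑ i, m i = d := by
    have := hf (mem_support_iff.mp hm)
    rw [Finsupp.weight_apply, Finsupp.sum_fintype _ _ (by simp)] at this
    simpa using this
  have h2 : ∏ i, (c * y i) ^ m i = c ^ d * ∏ i, y i ^ m i := by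
    rw [← h1, ← Finset.prod_pow_eq_pow_sum, ← Finset.prod_mul_distrib]
    exact Finset.prod_congr rfl fun i _ => mul_pow _ _ _
  rw [h2]
  ring

theorem onX_smul (I : Set (MvPolynomial (Fin (N + 1)) k)) (hI : Homog I) (y : Fin (N + 1) → K)
    (h : OnX I y) (c : K) : OnX I fun a => c * y a := by
  intro f hf
  obtain ⟨d, hd⟩ := hI f hf
  rw [aeval_smul_homog f hd, h f hf, mul_zero]

theorem red (P : Pla k K) (y : Fin (N + 1) → K) (hy : y ≠ 0) :
    ∃ s : K, s ≠ 0 ∧ (∀ a, y a / s ∈ P.O) ∧ (fun a => P.res (y a / s)) ≠ 0 ∧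
      (∀ ℓ : Fin (N + 1) → K, (∀ a, ℓ a ∈ P.O) → dt ℓ y / s ∈ P.O ∧
        P.res (dt ℓ y / s) = dt (fun a => P.res (ℓ a)) fun a => P.res (y a / s)) ∧
      ∀ I : Set (MvPolynomial (Fin (N + 1)) k), Homog I → OnX I y → OnX I fun a => P.res (y a / s) := by
  classical
  obtain ⟨a0, -, ha0⟩ := Finset.exists_max_image (Finset.univ : Finset (Fin (N + 1)))
    (fun j => P.O.valuation (y j)) Finset.univ_nonempty
  have hs : y a0 ≠ 0 := by
    intro h
    apply hy
    funext j
    have h1 := ha0 j (Finset.mem_univ j)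
    rw [h, map_zero] at h1
    exact (Valuation.zero_iff _).mp (le_zero_iff.mp h1)
  have hO : ∀ a, y a / y a0 ∈ P.O := by
    intro a
    rw [← P.O.valuation_le_one_iff, map_div₀]
    exact div_le_one_of_le₀ (ha0 a (Finset.mem_univ a)) zero_le'
  refine ⟨y a0, hs, hO, ?_, ?_, ?_⟩
  · intro h
    have h1 := congrFun h a0
    simp only [Pi.zero_apply] at h1
    rw [div_self hs, P.res_one] at h1
    exact one_ne_zero h1
  · intro ℓ hℓ
    have h1 : ∀ a ∈ Finset.univ, ℓ a * (y a / y a0) ∈ P.O := fun a _ => P.O.mul_mem _ _ (hℓ a) (hO a)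
    rw [dt_div]
    refine ⟨P.mem_sum _ _ h1, ?_⟩
    rw [P.res_sum _ _ h1]
    unfold dt
    exact Finset.sum_congr rfl fun a _ => P.res_mul (hℓ a) (hO a)
  · intro I hI hX f hf
    have h1 : OnX I fun a => y a / y a0 := by
      have := onX_smul I hI y hX (y a0)⁻¹
      have h2 : (fun a => (y a0)⁻¹ * y a) = fun a => y a / y a0 := by
        funext a
        rw [div_eq_mul_inv, mul_comm]
      rwa [h2] at this
    rw [← (P.res_aeval f _ hO).2, h1 f hf, P.res_zero]

end Pool.Agent.GS
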