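import Pool.Agent.Helper77.GS.Bottom
import Pool.Agent.Helper36.GS.Nst

/-!
# GS, block C: the core
-/

set_option autoImplicit false

namespace Pool.Agent.GS

open MvPolynomial

universe u

variable {F κ : Type u} [Field F] [Field κ] [Algebra F κ] {N n q r : ℕ}

theorem lin_self (ℓ x : Fin (N + 1) → F) : lin ℓ x = dt ℓ x := rfl

/-- transfer of the points to `F` -/
theorem points [IsAlgClosed F] (I : Set (MvPolynomial (Fin (N + 1)) F)) (hI : Homog I)
    (ℓ : Fin q → Fin (N + 1) → F) (s0 : Fin r) (y : Fin r → Fin (N + 1) → κ) (hX : ∀ σ, OnX I (y σ))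
    (B C : Finset (Fin q)) (hB : ∀ h ∈ B, lin (ℓ h) (y s0) = 0) (hC : ∀ g, g ∉ C → uu ℓ y g = 0)
    (g0 : Fin q) (h0 : uu ℓ y g0 ≠ 0) (c : Fin q → F)
    (hc : ∀ g ∈ C, uu ℓ y g / uu ℓ y g0 = algebraMap F κ (c g)) :
    ∃ x : Fin r → Fin (N + 1) → F, (∀ σ, OnX I (x σ)) ∧ (∀ h ∈ B, dt (ℓ h) (x s0) = 0) ∧
      (∀ g, g ∉ C → ∏ σ, dt (ℓ g) (x σ) = 0) ∧ ∀ g ∈ C, ∏ σ, dt (ℓ g) (x σ) = c g := by
  classical
  -- scaling
  let y1 : Fin r → Fin (N + 1) → κ := fun σ a => (if σ = s0 then (uu ℓ y g0)⁻¹ else 1) * y σ a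
  have hlin : ∀ g σ, lin (ℓ g) (y1 σ) = (if σ = s0 then (uu ℓ y g0)⁻¹ else 1) * lin (ℓ g) (y σ) := by
    intro g σ
    unfold lin
    rw [Finset.mul_sum]
    exact Finset.sum_congr rfl fun a _ => by simp only [y1]; ring
  have huu : ∀ g, uu ℓ y1 g = uu ℓ y g / uu ℓ y g0 := by
    intro g
    rw [uu_eq]
    simp only [hlin, Finset.prod_mul_distrib, Finset.prod_ite_eq', Finset.mem_univ, if_true]
    rw [uu_eq ℓ y g, div_eq_inv_mul]
  have hX1 : ∀ σ, OnX I (y1 σ) := fun σ => onX_smul I hI (y σ) (hX σ) _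
  obtain ⟨t', ht'⟩ := nst (F := F) (fun p : Fin r × Fin (N + 1) => y1 p.1 p.2)
  let L : Fin q → Fin r → MvPolynomial (Fin r × Fin (N + 1)) F := fun g σ => ∑ a, MvPolynomial.C (ℓ g a) * X (σ, a)
  have hL : ∀ {K : Type u} [Field K] [Algebra F K] (z : Fin r → Fin (N + 1) → K) (g : Fin q) (σ : Fin r),
      aeval (fun p : Fin r × Fin (N + 1) => z p.1 p.2) (L g σ) = lin (ℓ g) (z σ) := by
    intro K _ _ z g σ
    simp only [L, map_sum, map_mul, aeval_C, aeval_X]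
    rfl
  refine ⟨fun σ a => t' (σ, a), ?_, ?_, ?_, ?_⟩
  · intro σ f hf
    have h1 : aeval (fun p : Fin r × Fin (N + 1) => y1 p.1 p.2) (rename (fun a => (σ, a)) f) = 0 := by
      rw [aeval_rename]
      exact hX1 σ f hf
    have h2 := ht' _ h1
    rw [aeval_rename] at h2
    exact h2
  · intro h hh
    have h1 : aeval (fun p : Fin r × Fin (N + 1) => y1 p.1 p.2) (L h s0) = 0 := by
      rw [hL, hlin, hB h hh, mul_zero]
    have h2 := ht' _ h1
    rw [← lin_self]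
    rw [← hL (fun σ a => t' (σ, a)) h s0]
    exact h2
  · intro g hg
    have h1 : aeval (fun p : Fin r × Fin (N + 1) => y1 p.1 p.2) (∏ σ, L g σ) = 0 := by
      rw [map_prod]
      simp only [hL]
      rw [← uu_eq, huu, hC g hg, zero_div]
    have h2 := ht' _ h1
    rw [map_prod] at h2
    rw [← h2]
    exact Finset.prod_congr rfl fun σ _ => by
      rw [← lin_self]
      exact (hL (fun σ a => t' (σ, a)) g σ).symm
  · intro g hg
    have h1 : aeval (fun p : Fin r × Fin (N + 1) => y1 p.1 p.2) (∏ σ, L g σ - MvPolynomial.C (c g)) = 0 := by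
      rw [map_sub, map_prod, aeval_C]
      simp only [hL]
      rw [← uu_eq, huu, hc g hg, sub_self]
    have h2 := ht' _ h1
    rw [map_sub, map_prod, aeval_C, sub_eq_zero] at h2
    have h3 : (algebraMap F F) (c g) = c g := rfl
    rw [h3] at h2
    rw [← h2]
    exact Finset.prod_congr rfl fun σ _ => by
      rw [← lin_self]
      exact (hL (fun σ a => t' (σ, a)) g σ).symm

/-- one half of the bottom -/
theorem half [IsAlgClosed F] (I : Set (MvPolynomial (Fin (N + 1)) F)) (hI : Homog I) (hq : r * n + 2 ≤ q)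
    (ℓ : Fin q → Fin (N + 1) → F) (hGP : GP F I ℓ n) (s0 : Fin r) (A : Finset (Fin q)) (hA : A.card + 1 = n)
    (y : Fin r → Fin (N + 1) → κ) (hst : St I ℓ n s0 A y) (i1 : Fin q) (hi1 : uu ℓ y i1 ≠ 0) (μ : κ) (hμ : μ ≠ 0)
    (M : ℕ) (hM : 0 < M) (w : Fin q → ℤ) (hw : ∀ h, uu ℓ y h ≠ 0 → ∃ c : F, c ≠ 0 ∧
      (uu ℓ y h / uu ℓ y i1) ^ M = algebraMap F κ c * μ ^ w h) (C C' : Finset (Fin q))
    (hC : ∀ g, g ∈ C ↔ uu ℓ y g ≠ 0 ∧ ∀ h, uu ℓ y h ≠ 0 → w g ≤ w h)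
    (hC' : ∀ g, g ∈ C' ↔ uu ℓ y g ≠ 0 ∧ ∀ h, uu ℓ y h ≠ 0 → w h ≤ w g) (hne : C'.Nonempty)
    (hCC : Disjoint C C') :
    q ≤ C.card + r * n ∧ (C.card ≤ C'.card → ∃ (A V : Finset (Fin q)) (ι : Fin q → Fin q),
      Comb n A V ι ∧ Bad I r A V ι ℓ) := by
  classical
  -- the place of an element of `C'`
  have hpl : ∀ j ∈ C', ∃ (P : Pla F κ) (y' : Fin r → Fin (N + 1) → P.K) (S : κ), RedData P I ℓ y y' S ∧
      (∀ h ∈ insert j A, lin (ℓ h) (y' s0) = 0) ∧ ∀ g, uu ℓ y' g ≠ 0 ↔ g ∈ C := by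
    intro j hj
    obtain ⟨hj0, hjmax⟩ := (hC' j).mp hj
    obtain ⟨P, y', S, hR, -, hst'⟩ := step I hI ℓ hGP (by omega) s0 A y hst (by omega) j hj0
    refine ⟨P, y', S, hR, hst'.onA, fun g => ?_⟩
    rw [cls hR hGP (by omega) i1 hi1 μ hμ M hM w hw j hj0
      (uu_eq_zero ℓ y' j s0 (hst'.onA j (Finset.mem_insert_self j A))) hjmax g]
    exact (hC g).symm
  have hcard : q ≤ C.card + r * n := by
    obtain ⟨j, hj⟩ := hne
    obtain ⟨P, y', S, hR, -, hz⟩ := hpl j hj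
    have h1 := card_zero I ℓ hGP y' hR.ne hR.onX Cᶜ fun g hg => by
      by_contra h0
      exact (Finset.mem_compl.mp hg) ((hz g).mp h0)
    rw [Finset.card_compl, Fintype.card_fin] at h1
    omega
  refine ⟨hcard, fun hle => ?_⟩
  have hCne : C.Nonempty := by
    rw [← Finset.card_pos]
    omega
  obtain ⟨g0, hg0⟩ := hCne
  -- the constants
  have hcst : ∀ g ∈ C, ∃ c : F, c ≠ 0 ∧ uu ℓ y g / uu ℓ y g0 = algebraMap F κ c := by
    intro g hg
    obtain ⟨hg1, hg2⟩ := (hC g).mp hg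
    obtain ⟨hg01, hg02⟩ := (hC g0).mp hg0
    have hwe : w g = w g0 := le_antisymm (hg2 g0 hg01) (hg02 g hg1)
    obtain ⟨c1, hc1, e1⟩ := hw g hg1
    obtain ⟨c2, hc2, e2⟩ := hw g0 hg01
    have h1 : (uu ℓ y g / uu ℓ y g0) ^ M = algebraMap F κ (c1 / c2) := by
      have h2 : uu ℓ y g / uu ℓ y g0 = (uu ℓ y g / uu ℓ y i1) / (uu ℓ y g0 / uu ℓ y i1) := by
        field_simp
      rw [h2, div_pow, e1, e2, hwe, map_div₀]
      have h3 : μ ^ w g0 ≠ 0 := zpow_ne_zero _ hμ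
      have h4 : algebraMap F κ c2 ≠ 0 := (map_ne_zero _).mpr hc2
      field_simp
    obtain ⟨c, hc⟩ := cst_of_pow _ M hM ⟨_, h1⟩
    refine ⟨c, ?_, hc⟩
    rintro rfl
    rw [map_zero] at hc
    exact div_ne_zero hg1 hg01 hc
  choose! c hc0 hc using hcst
  -- the points
  have hpts : ∀ j ∈ C', ∃ x : Fin r → Fin (N + 1) → F, (∀ σ, OnX I (x σ)) ∧
      (∀ h ∈ insert j A, dt (ℓ h) (x s0) = 0) ∧
      (∀ g, g ∉ C → ∏ σ, dt (ℓ g) (x σ) = 0) ∧ ∀ g ∈ C, ∏ σ, dt (ℓ g) (x σ) = c g := by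
    intro j hj
    obtain ⟨P, y', S, hR, hB, hz⟩ := hpl j hj
    refine points I hI ℓ s0 y' hR.onX _ C hB (fun g hg => ?_) g0 ((hz g0).mpr hg0) c fun g hg => ?_
    · by_contra h0
      exact hg ((hz g).mp h0)
    · rcases eq_or_ne g g0 with rfl | hne
      · have h1 := hc g hg
        rw [div_self ((hC g).mp hg).1] at h1
        have h2 : c g = 1 := by
          apply (algebraMap F κ).injective
          rw [← h1, map_one]
        rw [div_self ((hz g).mpr hg), h2, map_one]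
      · have hmono := hR.mono (Pi.single g 1 - Pi.single g0 1) (by simp) (by
          intro i hi
          have h1 : i ≠ g := by
            rintro rfl
            exact (hz i).mpr hg hi
          have h2 : i ≠ g0 := by
            rintro rfl
            exact (hz i).mpr hg0 hi
          simp [h1, h2])
        have hmm : ∀ {L : Type u} [Field L] (u : Fin q → L),
            ∏ i, u i ^ (Pi.single g 1 - Pi.single g0 1 : Fin q → ℤ) i = u g / u g0 := by
          intro L _ u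
          rw [Finset.prod_eq_mul g g0 hne]
          · simp [hne, Ne.symm hne, div_eq_mul_inv]
          · intro i _ hi
            simp [hi.1, hi.2]
          · intro h
            exact absurd (Finset.mem_univ _) h
          · intro h
            exact absurd (Finset.mem_univ _) h
        have h1 := hmono.2.1
        rw [hmm, hmm, hc g hg, P.res_cst] at h1
        exact h1.symm
  choose! x hx1 hx2 hx3 hx4 using hpts
  -- the bijection
  obtain ⟨V, hVC, hVc⟩ := Finset.exists_subset_card_eq hle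
  have e : V ≃ C := Finset.equivOfCardEq hVc
  let ι : Fin q → Fin q := fun i => if h : i ∈ V then (e ⟨i, h⟩ : Fin q) else i
  have hι : ∀ i (hi : i ∈ V), ι i = e ⟨i, hi⟩ := fun i hi => by simp only [ι, hi, dif_pos]
  have hιC : ∀ i ∈ V, ι i ∈ C := fun i hi => by
    rw [hι i hi]
    exact (e ⟨i, hi⟩).2
  have hιs : ∀ g ∈ C, ∃ i ∈ V, ι i = g := by
    intro g hg
    refine ⟨e.symm ⟨g, hg⟩, (e.symm ⟨g, hg⟩).2, ?_⟩
    rw [hι _ (e.symm ⟨g, hg⟩).2]
    simp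
  have hnA : ∀ i, uu ℓ y i ≠ 0 → i ∉ A := fun i hi hiA => hi (uu_eq_zero ℓ y i s0 (hst.onA i hiA))
  refine ⟨A, V, ι, ⟨hA, ?_, ?_, ?_, ?_, ?_⟩, s0, x, c, ?_, ?_, ?_, ?_, ?_⟩
  · rw [← Finset.card_pos, hVc]
    omega
  · exact fun i hi => hnA i ((hC' i).mp (hVC hi)).1
  · exact fun i hi => hnA _ ((hC _).mp (hιC i hi)).1
  · intro i hi j hj h
    exact (Finset.disjoint_left.mp hCC) (h ▸ hιC j hj) (hVC hi)
  · intro i hi j hj h
    rw [hι i hi, hι j hj] at h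
    have := e.injective (Subtype.ext h)
    exact congrArg Subtype.val this
  · exact fun i hi σ => hx1 i (hVC hi) σ
  · exact fun i hi h hh => hx2 i (hVC hi) h hh
  · intro i hi g hg
    refine hx3 i (hVC hi) g fun hgC => ?_
    obtain ⟨j, hj, hjg⟩ := hιs g hgC
    exact hg j hj hjg.symm
  · exact fun i hi m hm => hx4 i (hVC hi) _ (hιC m hm)
  · exact fun m hm => hc0 _ (hιC m hm)

theorem core {F Ω : Type u} [Field F] [IsAlgClosed F] [Field Ω] [Algebra F Ω] {N n q r : ℕ}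
    (I : Set (MvPolynomial (Fin (N + 1)) F)) (hI : Homog I) (hn : 1 ≤ n) (hq : r * n + 2 ≤ q)
    (ℓ : Fin q → Fin (N + 1) → F) (hGP : GP F I ℓ n) (s0 : Fin r) (y : Fin r → Fin (N + 1) → Ω)
    (hX : ∀ σ, OnX I (y σ)) (hu : ∀ i, uu ℓ y i ≠ 0) (hgen : (n : ℕ∞) ≤ rk F (Rat (y s0)))
    (hrank : Rk F (uu ℓ y) n) :
    ∃ (A V : Finset (Fin q)) (ι : Fin q → Fin q), Comb n A V ι ∧ Bad I r A V ι ℓ := by
  classical
  have hne : ∀ σ, y σ ≠ 0 := by
    intro σ h0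
    have hq0 : 0 < q := by omega
    apply hu ⟨0, hq0⟩
    apply uu_eq_zero ℓ y _ σ
    rw [h0]
    simp [lin]
  have hst0 : St I ℓ n s0 ∅ y := ⟨hne, hX, by simp, by simpa using hgen, by simpa using hrank⟩
  obtain ⟨κ, hκ, hFκ, A, y, hA, hst⟩ := chain I hI ℓ hGP (by omega) s0 y hst0 (n - 1) (by omega)
  have hA1 : A.card + 1 = n := by omega
  obtain ⟨j1, hj1⟩ := exists_nonzero I ℓ hGP (by omega) y hst.ne hst.onX
  obtain ⟨P, y', S, hR, -, hst'⟩ := step I hI ℓ hGP (by omega) s0 A y hst (by omega) j1 hj1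
  obtain ⟨i1, hi1'⟩ := exists_nonzero I ℓ hGP (by omega) y' hR.ne hR.onX
  have hi1 := hR.ne_zero i1 hi1'
  have hj1' := uu_eq_zero ℓ y' j1 s0 (hst'.onA j1 (Finset.mem_insert_self j1 A))
  set μ : κ := uu ℓ y j1 / uu ℓ y i1 with hμdef
  have hμ0 : μ ≠ 0 := div_ne_zero hj1 hi1
  have hμlt : P.O.valuation μ < 1 := by
    rw [hμdef, map_div₀, div_lt_one₀ (zero_lt_iff.mpr ((Valuation.ne_zero_iff _).mpr hi1)), hR.val_eq i1 hi1']
    exact hR.val_lt j1 hj1'
  have hμ : ∀ m : ℤ, Cst F (μ ^ m) → m = 0 := by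
    rintro m ⟨c, hc⟩
    by_contra hm
    have hc0 : c ≠ 0 := by
      rintro rfl
      rw [map_zero] at hc
      exact zpow_ne_zero _ hμ0 hc
    have h1 := congrArg P.O.valuation hc
    rw [val_cst P c hc0, map_zpow₀] at h1
    rcases lt_or_gt_of_ne hm with h | h
    · obtain ⟨m, hm⟩ := Int.eq_negSucc_of_lt_zero h
      rw [hm, zpow_negSucc, inv_eq_one] at h1
      exact (pow_lt_one₀ zero_le hμlt (Nat.succ_ne_zero m)).ne h1
    · obtain ⟨m, hm⟩ := Int.eq_ofNat_of_zero_le h.le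
      rw [hm, zpow_natCast] at h1
      refine (pow_lt_one₀ zero_le hμlt ?_).ne h1
      rintro rfl
      rw [hm] at h
      exact lt_irrefl _ h
  obtain ⟨M, w, hM, hw1, hwj, hw⟩ := slopes (uu ℓ y) (by
    have := hst.rank
    have h1 : n - A.card = 1 := by omega
    rwa [h1] at this) j1 i1 hj1 hi1 hμ
  -- the classes
  let Z : Finset (Fin q) := Finset.univ.filter fun i => uu ℓ y i ≠ 0
  have hZ : ∀ i, i ∈ Z ↔ uu ℓ y i ≠ 0 := fun i => by simp [Z]
  have hZne : Z.Nonempty := ⟨i1, (hZ i1).mpr hi1⟩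
  let C : Finset (Fin q) := Z.filter fun g => ∀ h ∈ Z, w g ≤ w h
  let C' : Finset (Fin q) := Z.filter fun g => ∀ h ∈ Z, w h ≤ w g
  have hC : ∀ g, g ∈ C ↔ uu ℓ y g ≠ 0 ∧ ∀ h, uu ℓ y h ≠ 0 → w g ≤ w h := by
    intro g
    simp only [C, Finset.mem_filter, hZ]
  have hC' : ∀ g, g ∈ C' ↔ uu ℓ y g ≠ 0 ∧ ∀ h, uu ℓ y h ≠ 0 → w h ≤ w g := by
    intro g
    simp only [C', Finset.mem_filter, hZ]
  have hCne : C.Nonempty := by
    obtain ⟨g, hg, hmin⟩ := Finset.exists_min_image Z w hZne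
    exact ⟨g, Finset.mem_filter.mpr ⟨hg, hmin⟩⟩
  have hCne' : C'.Nonempty := by
    obtain ⟨g, hg, hmax⟩ := Finset.exists_max_image Z w hZne
    exact ⟨g, Finset.mem_filter.mpr ⟨hg, hmax⟩⟩
  have hCC : Disjoint C C' := by
    rw [Finset.disjoint_left]
    intro g hg hg'
    have h1 := ((hC g).mp hg).2 i1 hi1
    have h2 := ((hC' g).mp hg').2 j1 hj1
    rw [hw1] at h1
    rw [hwj] at h2
    omega
  have H1 := half I hI hq ℓ hGP s0 A hA1 y hst i1 hi1 μ hμ0 M hM w hw C C' hC hC' hCne' hCC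
  have H2 := half I hI hq ℓ hGP s0 A hA1 y hst i1 hi1 μ⁻¹ (inv_ne_zero hμ0) M hM (fun h => -w h) (by
    intro h hh
    obtain ⟨c, hc0, hc⟩ := hw h hh
    refine ⟨c, hc0, ?_⟩
    rw [hc, inv_zpow', neg_neg]) C' C (fun g => by
      rw [hC' g]
      simp only [neg_le_neg_iff]) (fun g => by
      rw [hC g]
      simp only [neg_le_neg_iff]) hCne hCC.symm
  rcases le_total C.card C'.card with h | h
  · exact H1.2 h
  · exact H2.2 h

end Pool.Agent.GS
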