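import Pool.Agent.Helper77.GS.Chain

/-!
# GS, block C, part 3: the bottom of the chain
-/

set_option autoImplicit false

namespace Pool.Agent.GS

open MvPolynomial

universe u

variable {F κ : Type u} [Field F] [Field κ] [Algebra F κ] {N n q r : ℕ}

/-- elements algebraic over an algebraically closed field -/
theorem cst_of_isAlgebraic [IsAlgClosed F] (z : κ) (hz : IsAlgebraic F z) : Cst F z := by
  have h1 := minpoly.irreducible hz.isIntegral
  have h2 := IsAlgClosed.degree_eq_one_of_irreducible F h1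
  obtain ⟨a, ha⟩ := minpoly.mem_range_of_degree_eq_one F z h2
  exact ⟨a, ha.symm⟩

theorem cst_of_pow [IsAlgClosed F] (z : κ) (m : ℕ) (hm : 0 < m) (h : Cst F (z ^ m)) : Cst F z := by
  obtain ⟨c, hc⟩ := h
  apply cst_of_isAlgebraic
  refine IsAlgebraic.of_pow hm ?_
  rw [hc]
  exact isAlgebraic_algebraMap c

theorem val_cst (P : Pla F κ) (c : F) (hc : c ≠ 0) : P.O.valuation (algebraMap F κ c) = 1 := by
  apply le_antisymm ((P.O.valuation_le_one_iff _).mpr (P.h c))
  have h1 := (P.O.valuation_le_one_iff _).mpr (P.h c⁻¹)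
  rw [map_inv₀, map_inv₀] at h1
  exact (inv_le_one₀ (zero_lt_iff.mpr ((Valuation.ne_zero_iff _).mpr
    ((map_ne_zero (algebraMap F κ)).mpr hc)))).mp h1

/-- slopes -/
theorem slopes [IsAlgClosed F] (u : Fin q → κ) (hr : Rk F u 1) (j1 i1 : Fin q) (hj1 : u j1 ≠ 0) (hi1 : u i1 ≠ 0)
    (hμ : ∀ m : ℤ, Cst F ((u j1 / u i1) ^ m) → m = 0) :
    ∃ (M : ℕ) (w : Fin q → ℤ), 0 < M ∧ w i1 = 0 ∧ w j1 = M ∧
      (∀ h, u h ≠ 0 → ∃ c : F, c ≠ 0 ∧ (u h / u i1) ^ M = algebraMap F κ c * (u j1 / u i1) ^ w h) := by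
  classical
  set μ : κ := u j1 / u i1 with hμdef
  have hμ0 : μ ≠ 0 := div_ne_zero hj1 hi1
  have key : ∀ h, ∃ A B : ℤ, A ≠ 0 ∧ (u h ≠ 0 → ∃ c : F, c ≠ 0 ∧ (u h / u i1) ^ A * μ ^ B = algebraMap F κ c) := by
    intro h
    by_cases hh : u h = 0
    · exact ⟨1, 0, one_ne_zero, fun h0 => absurd hh h0⟩
    have hsingle : ∀ a : Fin q, ∑ i, (Pi.single a 1 - Pi.single i1 1 : Fin q → ℤ) i = 0 := by
      intro a
      simp
    obtain ⟨a, ha, c, hc⟩ := hr ![Pi.single h 1 - Pi.single i1 1, Pi.single j1 1 - Pi.single i1 1] (by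
      intro b
      fin_cases b
      · exact hsingle h
      · exact hsingle j1) (by
      intro b i hi
      have h1 : i ≠ h := by
        rintro rfl
        exact hh hi
      have h2 : i ≠ j1 := by
        rintro rfl
        exact hj1 hi
      have h3 : i ≠ i1 := by
        rintro rfl
        exact hi1 hi
      fin_cases b
      · simp [h1, h3]
      · simp [h2, h3])
    have hmon : ∀ (a : Fin q) (m : ℤ), u a ≠ 0 →
        ∏ i, u i ^ (m * (Pi.single a 1 - Pi.single i1 1 : Fin q → ℤ) i) = (u a / u i1) ^ m := by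
      intro a m ha0
      have h1 : ∀ i, u i ^ (m * (Pi.single a 1 - Pi.single i1 1 : Fin q → ℤ) i) =
          (if i = a then u a ^ m else 1) * (if i = i1 then (u i1 ^ m)⁻¹ else 1) := by
        intro i
        by_cases hia : i = a
        · subst hia
          by_cases hii : i = i1
          · subst hii
            simp [mul_inv_cancel₀ (zpow_ne_zero m ha0)]
          · simp [hii]
        · by_cases hii : i = i1
          · subst hii
            simp [hia, zpow_neg]
          · simp [hia, hii]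
      simp only [h1, Finset.prod_mul_distrib, Finset.prod_ite_eq', Finset.mem_univ, if_true]
      rw [div_zpow, div_eq_mul_inv]
    have hc' : (u h / u i1) ^ a 0 * μ ^ a 1 = algebraMap F κ c := by
      rw [← hc, ← hmon h (a 0) hh, hμdef, ← hmon j1 (a 1) hj1, ← Finset.prod_mul_distrib]
      refine Finset.prod_congr rfl fun i _ => ?_
      rw [Fin.sum_univ_two]
      by_cases hi : u i = 0
      · have h1 : i ≠ h := by
          rintro rfl
          exact hh hi
        have h2 : i ≠ j1 := by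
          rintro rfl
          exact hj1 hi
        have h3 : i ≠ i1 := by
          rintro rfl
          exact hi1 hi
        simp [h1, h2, h3]
      · rw [zpow_add₀ hi]
        rfl
    refine ⟨a 0, a 1, ?_, fun _ => ⟨c, ?_, hc'⟩⟩
    · intro h0
      rw [h0, zpow_zero, one_mul] at hc'
      have h1 := hμ _ ⟨c, hc'⟩
      apply ha
      funext b
      fin_cases b
      · exact h0
      · exact h1
    · rintro rfl
      rw [map_zero] at hc'
      exact mul_ne_zero (zpow_ne_zero _ (div_ne_zero hh hi1)) (zpow_ne_zero _ hμ0) hc'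
  choose A B hA hAB using key
  set M : ℕ := (∏ h, A h).natAbs with hM
  have hM0 : 0 < M := Int.natAbs_pos.mpr (Finset.prod_ne_zero_iff.mpr fun h _ => hA h)
  have hdvd : ∀ h, ∃ R : ℤ, (M : ℤ) = A h * R := by
    intro h
    have h1 : A h ∣ ∏ h, A h := Finset.dvd_prod_of_mem A (Finset.mem_univ h)
    have h2 : A h ∣ (M : ℤ) := by
      rw [hM]
      exact Int.dvd_natAbs.mpr h1
    exact h2
  choose R hR using hdvd
  have hw : ∀ h, u h ≠ 0 → ∃ c : F, c ≠ 0 ∧ (u h / u i1) ^ M = algebraMap F κ c * μ ^ (-(B h * R h)) := by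
    intro h hh
    obtain ⟨c, hc0, hc⟩ := hAB h hh
    refine ⟨c ^ R h, zpow_ne_zero _ hc0, ?_⟩
    have h1 : (u h / u i1) ^ A h = algebraMap F κ c * μ ^ (-B h) := by
      rw [← hc, mul_assoc, ← zpow_add₀ hμ0, add_neg_cancel, zpow_zero, mul_one]
    have h2 : (u h / u i1) ^ M = ((u h / u i1) ^ A h) ^ R h := by
      rw [← zpow_mul, ← hR h, zpow_natCast]
    rw [h2, h1, mul_zpow, map_zpow₀, ← zpow_mul, neg_mul]
  refine ⟨M, fun h => if u h = 0 then 0 else -(B h * R h), hM0, ?_, ?_, ?_⟩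
  · obtain ⟨c, hc0, hc⟩ := hw i1 hi1
    rw [div_self hi1, one_pow] at hc
    have h1 : μ ^ (-(B i1 * R i1)) = algebraMap F κ c⁻¹ := by
      rw [map_inv₀]
      exact eq_inv_of_mul_eq_one_right hc.symm
    simp only [hi1, if_false]
    exact hμ _ ⟨_, h1⟩
  · obtain ⟨c, hc0, hc⟩ := hw j1 hj1
    have h1 : μ ^ ((M : ℤ) - (-(B j1 * R j1))) = algebraMap F κ c := by
      rw [zpow_sub₀ hμ0, zpow_natCast, hc, mul_div_cancel_right₀ _ (zpow_ne_zero _ hμ0)]
    have h2 := hμ _ ⟨c, h1⟩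
    simp only [hj1, if_false]
    omega
  · intro h hh
    simp only [hh, if_false]
    exact hw h hh

/-- the class of the smallest slope is what remains at the place of an index of largest slope -/
theorem cls {P : Pla F κ} {I : Set (MvPolynomial (Fin (N + 1)) F)} {ℓ : Fin q → Fin (N + 1) → F}
    {y : Fin r → Fin (N + 1) → κ} {y' : Fin r → Fin (N + 1) → P.K} {S : κ} (h : RedData P I ℓ y y' S)
    (hGP : GP F I ℓ n) (hq : r * n + 1 ≤ q) (i1 : Fin q) (hi1 : uu ℓ y i1 ≠ 0) (μ : κ) (hμ : μ ≠ 0) (M : ℕ)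
    (hM : 0 < M) (w : Fin q → ℤ) (hw : ∀ h, uu ℓ y h ≠ 0 → ∃ c : F, c ≠ 0 ∧
      (uu ℓ y h / uu ℓ y i1) ^ M = algebraMap F κ c * μ ^ w h) (j : Fin q) (hj : uu ℓ y j ≠ 0)
    (hj' : uu ℓ y' j = 0) (hmax : ∀ h, uu ℓ y h ≠ 0 → w h ≤ w j) (g : Fin q) :
    uu ℓ y' g ≠ 0 ↔ uu ℓ y g ≠ 0 ∧ ∀ h, uu ℓ y h ≠ 0 → w g ≤ w h := by
  classical
  have hvμ : P.O.valuation μ ≠ 0 := (Valuation.ne_zero_iff _).mpr hμ
  have hv1 : P.O.valuation (uu ℓ y i1) ≠ 0 := (Valuation.ne_zero_iff _).mpr hi1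
  have hval : ∀ h, uu ℓ y h ≠ 0 → P.O.valuation (uu ℓ y h) ^ M =
      P.O.valuation μ ^ w h * P.O.valuation (uu ℓ y i1) ^ M := by
    intro h hh
    obtain ⟨c, hc0, hc⟩ := hw h hh
    have h1 := congrArg P.O.valuation hc
    rw [map_mul, val_cst P c hc0, one_mul, map_pow, map_div₀, map_zpow₀, div_pow,
      div_eq_iff (pow_ne_zero _ hv1)] at h1
    exact h1
  obtain ⟨i', hi'⟩ := exists_nonzero I ℓ hGP hq y' h.ne h.onX
  have hi'0 := h.ne_zero i' hi'
  have hlt : P.O.valuation (uu ℓ y j) < P.O.valuation (uu ℓ y i') := by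
    rw [h.val_eq i' hi']
    exact h.val_lt j hj'
  have hlt' : P.O.valuation μ ^ w j < P.O.valuation μ ^ w i' := by
    have h1 := pow_lt_pow_left₀ hlt zero_le hM.ne'
    rw [hval j hj, hval i' hi'0] at h1
    exact lt_of_mul_lt_mul_right h1 zero_le
  have hμ1 : P.O.valuation μ < 1 := by
    by_contra hcon
    push Not at hcon
    exact absurd (zpow_le_zpow_right₀ hcon (hmax i' hi'0)) (not_le.mpr hlt')
  have hcmp : ∀ a b, uu ℓ y a ≠ 0 → uu ℓ y b ≠ 0 → (w a < w b → P.O.valuation (uu ℓ y b) < P.O.valuation (uu ℓ y a)) := by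
    intro a b ha hb hab
    have h1 : P.O.valuation μ ^ w b < P.O.valuation μ ^ w a :=
      zpow_lt_zpow_right_of_lt_one₀ (zero_lt_iff.mpr hvμ) hμ1 hab
    have h2 : P.O.valuation (uu ℓ y b) ^ M < P.O.valuation (uu ℓ y a) ^ M := by
      rw [hval a ha, hval b hb]
      exact mul_lt_mul_of_pos_right h1 (zero_lt_iff.mpr (pow_ne_zero _ hv1))
    exact lt_of_pow_lt_pow_left₀ M zero_le h2
  have hle : ∀ a, P.O.valuation (uu ℓ y a) ≤ P.O.valuation S := by
    intro a
    rcases eq_or_ne (uu ℓ y' a) 0 with h0 | h0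
    · exact (h.val_lt a h0).le
    · exact (h.val_eq a h0).le
  constructor
  · intro hg
    refine ⟨h.ne_zero g hg, fun a ha => ?_⟩
    by_contra hcon
    push Not at hcon
    have h1 := hcmp a g ha (h.ne_zero g hg) hcon
    rw [h.val_eq g hg] at h1
    exact absurd (hle a) (not_le.mpr h1)
  · rintro ⟨hg, hmin⟩ h0
    have h1 := h.val_lt g h0
    have h2 : P.O.valuation (uu ℓ y g) < P.O.valuation (uu ℓ y i') := by
      rw [h.val_eq i' hi']
      exact h1
    have h3 := pow_lt_pow_left₀ h2 zero_le hM.ne'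
    rw [hval g hg, hval i' hi'0] at h3
    have h4 := lt_of_mul_lt_mul_right h3 zero_le
    exact absurd (zpow_le_zpow_right_of_le_one₀ (zero_lt_iff.mpr hvμ) hμ1.le (hmin i' hi'0)) (not_le.mpr h4)

end Pool.Agent.GS
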