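import Pool.Agent.Helper77.GS.Place

/-!
# GS, block C, part 2: the chain of states
-/

set_option autoImplicit false

namespace Pool.Agent.GS

open MvPolynomial

universe u

variable {F κ : Type u} [Field F] [Field κ] [Algebra F κ] {N n q r : ℕ}

theorem uu_eq (ℓ : Fin q → Fin (N + 1) → F) (y : Fin r → Fin (N + 1) → κ) (i : Fin q) :
    uu ℓ y i = ∏ σ, lin (ℓ i) (y σ) := rfl

/-- at most `r n` of the hyperplanes meet `r` points -/
theorem card_zero (I : Set (MvPolynomial (Fin (N + 1)) F)) (ℓ : Fin q → Fin (N + 1) → F)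
    (hGP : GP F I ℓ n) (y : Fin r → Fin (N + 1) → κ) (hy : ∀ σ, y σ ≠ 0) (hX : ∀ σ, OnX I (y σ))
    (s : Finset (Fin q)) (hs : ∀ i ∈ s, uu ℓ y i = 0) : s.card ≤ r * n := by
  classical
  have h1 : s ⊆ Finset.univ.biUnion fun σ : Fin r => s.filter fun i => lin (ℓ i) (y σ) = 0 := by
    intro i hi
    have h2 := hs i hi
    rw [uu_eq, Finset.prod_eq_zero_iff] at h2
    obtain ⟨σ, -, hσ⟩ := h2
    exact Finset.mem_biUnion.mpr ⟨σ, Finset.mem_univ _, Finset.mem_filter.mpr ⟨hi, hσ⟩⟩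
  refine (Finset.card_le_card h1).trans (Finset.card_biUnion_le.trans ?_)
  refine (Finset.sum_le_sum (g := fun _ => n) fun σ _ => ?_).trans (by simp)
  exact hGP κ (y σ) (hX σ) (hy σ) _ fun i hi => (Finset.mem_filter.mp hi).2

/-- The reduction of `r` points at a place. -/
structure RedData (P : Pla F κ) (I : Set (MvPolynomial (Fin (N + 1)) F)) (ℓ : Fin q → Fin (N + 1) → F)
    (y : Fin r → Fin (N + 1) → κ) (y' : Fin r → Fin (N + 1) → P.K) (S : κ) : Prop where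
  ne : ∀ σ, y' σ ≠ 0
  onX : ∀ σ, OnX I (y' σ)
  S0 : S ≠ 0
  mem : ∀ i, uu ℓ y i / S ∈ P.O
  eq : ∀ i, P.res (uu ℓ y i / S) = uu ℓ y' i

theorem exists_red (P : Pla F κ) (I : Set (MvPolynomial (Fin (N + 1)) F)) (hI : Homog I)
    (ℓ : Fin q → Fin (N + 1) → F) (y : Fin r → Fin (N + 1) → κ) (hy : ∀ σ, y σ ≠ 0)
    (hX : ∀ σ, OnX I (y σ)) : ∃ (y' : Fin r → Fin (N + 1) → P.K) (S : κ), RedData P I ℓ y y' S ∧
      ∀ σ, ∃ s : κ, s ≠ 0 ∧ (∀ a, y σ a / s ∈ P.O) ∧ (fun a => P.res (y σ a / s)) ≠ 0 ∧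
      (∀ ℓ : Fin (N + 1) → κ, (∀ a, ℓ a ∈ P.O) → dt ℓ (y σ) / s ∈ P.O ∧
        P.res (dt ℓ (y σ) / s) = dt (fun a => P.res (ℓ a)) fun a => P.res (y σ a / s)) ∧
      y' σ = fun a => P.res (y σ a / s) := by
  choose s hs hsO hs0 hsl hsX using fun σ => red P (y σ) (hy σ)
  refine ⟨fun σ a => P.res (y σ a / s σ), ∏ σ, s σ, ⟨hs0, fun σ => hsX σ I hI (hX σ),
    Finset.prod_ne_zero_iff.mpr fun σ _ => hs σ, ?_, ?_⟩, fun σ => ⟨s σ, hs σ, hsO σ, hs0 σ, hsl σ, rfl⟩⟩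
  · intro i
    rw [uu_eq, ← Finset.prod_div_distrib]
    exact P.mem_prod _ _ fun σ _ => (lin_red P (ℓ i) (y σ) (s σ) (hsl σ)).1
  · intro i
    rw [uu_eq, ← Finset.prod_div_distrib, P.res_prod _ _ fun σ _ => (lin_red P (ℓ i) (y σ) (s σ) (hsl σ)).1]
    exact Finset.prod_congr rfl fun σ _ => (lin_red P (ℓ i) (y σ) (s σ) (hsl σ)).2

/-- residues of powers of units -/
theorem res_zpow (P : Pla F κ) (z : κ) (hz : P.O.valuation z = 1) (m : ℤ) :
    z ^ m ∈ P.O ∧ P.res (z ^ m) = P.res z ^ m ∧ P.O.valuation (z ^ m) = 1 := by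
  have hzO : z ∈ P.O := (P.O.valuation_le_one_iff _).mp hz.le
  have h1 : P.O.valuation (z ^ m) = 1 := by rw [map_zpow₀, hz, one_zpow]
  refine ⟨(P.O.valuation_le_one_iff _).mp h1.le, ?_, h1⟩
  have hnat : ∀ m : ℕ, P.res (z ^ m) = P.res z ^ m := by
    intro m
    induction m with
    | zero => rw [pow_zero, pow_zero, P.res_one]
    | succ m ih =>
      rw [pow_succ, pow_succ, P.res_mul (P.O.pow_mem hzO m) hzO, ih]
  cases m with
  | ofNat m => rw [Int.ofNat_eq_natCast, zpow_natCast, zpow_natCast]; exact hnat m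
  | negSucc m =>
    rw [zpow_negSucc, zpow_negSucc]
    have h2 : P.O.valuation (z ^ (m + 1)) = 1 := by rw [map_pow, hz, one_pow]
    have h3 : (z ^ (m + 1))⁻¹ ∈ P.O := by
      rw [← P.O.valuation_le_one_iff, map_inv₀, h2, inv_one]
    have h4 : P.res (z ^ (m + 1) * (z ^ (m + 1))⁻¹) = 1 := by
      rw [mul_inv_cancel₀, P.res_one]
      intro h0
      rw [h0, map_zero] at h2
      exact zero_ne_one h2
    rw [P.res_mul (P.O.pow_mem hzO _) h3, hnat] at h4
    exact eq_inv_of_mul_eq_one_right h4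

theorem prod_zpow_sum {ι : Type*} (s : Finset ι) (S : κ) (hS : S ≠ 0) (e : ι → ℤ) :
    ∏ i ∈ s, S ^ e i = S ^ ∑ i ∈ s, e i := by
  classical
  induction s using Finset.induction_on with
  | empty => simp
  | insert a s ha ih => rw [Finset.prod_insert ha, Finset.sum_insert ha, ih, zpow_add₀ hS]

namespace RedData

variable {P : Pla F κ} {I : Set (MvPolynomial (Fin (N + 1)) F)} {ℓ : Fin q → Fin (N + 1) → F}
  {y : Fin r → Fin (N + 1) → κ} {y' : Fin r → Fin (N + 1) → P.K} {S : κ}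

theorem val_eq (h : RedData P I ℓ y y' S) (i : Fin q) (hi : uu ℓ y' i ≠ 0) :
    P.O.valuation (uu ℓ y i) = P.O.valuation S := by
  rw [← h.eq, P.res_ne_zero (h.mem i), map_div₀, div_eq_one_iff_eq ((Valuation.ne_zero_iff _).mpr h.S0)] at hi
  exact hi

theorem val_lt (h : RedData P I ℓ y y' S) (i : Fin q) (hi : uu ℓ y' i = 0) :
    P.O.valuation (uu ℓ y i) < P.O.valuation S := by
  rw [← h.eq, P.res_eq_zero (h.mem i), map_div₀, div_lt_one₀ (zero_lt_iff.mpr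
    ((Valuation.ne_zero_iff _).mpr h.S0))] at hi
  exact hi

theorem ne_zero (h : RedData P I ℓ y y' S) (i : Fin q) (hi : uu ℓ y' i ≠ 0) : uu ℓ y i ≠ 0 := by
  intro h0
  have := h.val_eq i hi
  rw [h0, map_zero] at this
  exact h.S0 ((Valuation.zero_iff _).mp this.symm)

/-- monomials of degree zero -/
theorem mono (h : RedData P I ℓ y y' S) (e : Fin q → ℤ) (he : ∑ i, e i = 0)
    (hz : ∀ i, uu ℓ y' i = 0 → e i = 0) : ∏ i, uu ℓ y i ^ e i ∈ P.O ∧
      P.res (∏ i, uu ℓ y i ^ e i) = ∏ i, uu ℓ y' i ^ e i ∧ P.O.valuation (∏ i, uu ℓ y i ^ e i) = 1 := by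
  have h1 : ∏ i, uu ℓ y i ^ e i = ∏ i, (uu ℓ y i / S) ^ e i := by
    have h2 : ∀ i, (uu ℓ y i / S) ^ e i = uu ℓ y i ^ e i / S ^ e i := fun i => div_zpow _ _ _
    simp only [h2, Finset.prod_div_distrib]
    rw [prod_zpow_sum _ S h.S0, he, zpow_zero, div_one]
  have h3 : ∀ i, (uu ℓ y i / S) ^ e i ∈ P.O ∧ P.res ((uu ℓ y i / S) ^ e i) = uu ℓ y' i ^ e i ∧
      P.O.valuation ((uu ℓ y i / S) ^ e i) = 1 := by
    intro i
    rcases eq_or_ne (uu ℓ y' i) 0 with h0 | h0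
    · rw [hz i h0, zpow_zero, zpow_zero]
      exact ⟨P.O.one_mem, P.res_one, map_one _⟩
    · have h4 : P.O.valuation (uu ℓ y i / S) = 1 := by
        rw [map_div₀, h.val_eq i h0, div_self ((Valuation.ne_zero_iff _).mpr h.S0)]
      have h5 := res_zpow P _ h4 (e i)
      rw [h.eq] at h5
      exact h5
  rw [h1]
  refine ⟨P.mem_prod _ _ fun i _ => (h3 i).1, ?_, ?_⟩
  · rw [P.res_prod _ _ fun i _ => (h3 i).1]
    exact Finset.prod_congr rfl fun i _ => (h3 i).2.1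
  · rw [map_prod]
    exact Finset.prod_eq_one fun i _ => (h3 i).2.2

end RedData

/-- a state: the first point is generic on the hyperplanes of `A` -/
structure St (I : Set (MvPolynomial (Fin (N + 1)) F)) (ℓ : Fin q → Fin (N + 1) → F) (n : ℕ) (s0 : Fin r)
    (A : Finset (Fin q)) (y : Fin r → Fin (N + 1) → κ) : Prop where
  ne : ∀ σ, y σ ≠ 0
  onX : ∀ σ, OnX I (y σ)
  onA : ∀ h ∈ A, lin (ℓ h) (y s0) = 0
  gen : ((n - A.card : ℕ) : ℕ∞) ≤ rk F (Rat (y s0))
  rank : Rk F (uu ℓ y) (n - A.card)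

theorem uu_eq_zero (ℓ : Fin q → Fin (N + 1) → F) (y : Fin r → Fin (N + 1) → κ) (i : Fin q) (s0 : Fin r)
    (h : lin (ℓ i) (y s0) = 0) : uu ℓ y i = 0 := by
  rw [uu_eq]
  exact Finset.prod_eq_zero (Finset.mem_univ s0) h

theorem exists_nonzero (I : Set (MvPolynomial (Fin (N + 1)) F)) (ℓ : Fin q → Fin (N + 1) → F)
    (hGP : GP F I ℓ n) (hq : r * n + 1 ≤ q) (y : Fin r → Fin (N + 1) → κ) (hy : ∀ σ, y σ ≠ 0)
    (hX : ∀ σ, OnX I (y σ)) : ∃ i, uu ℓ y i ≠ 0 := by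
  by_contra hcon
  push Not at hcon
  have := card_zero I ℓ hGP y hy hX Finset.univ fun i _ => hcon i
  rw [Finset.card_univ, Fintype.card_fin] at this
  omega

/-- the drop of the rank -/
theorem rank_drop {P : Pla F κ} {I : Set (MvPolynomial (Fin (N + 1)) F)} {ℓ : Fin q → Fin (N + 1) → F}
    {y : Fin r → Fin (N + 1) → κ} {y' : Fin r → Fin (N + 1) → P.K} {S : κ} (h : RedData P I ℓ y y' S)
    (hGP : GP F I ℓ n) (hq : r * n + 1 ≤ q) (t : ℕ) (hr : Rk F (uu ℓ y) (t + 1)) (j : Fin q)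
    (hj : uu ℓ y j ≠ 0) (hj' : uu ℓ y' j = 0) : Rk F (uu ℓ y') t := by
  classical
  intro e he hz
  obtain ⟨i1, hi1⟩ := exists_nonzero I ℓ hGP hq y' h.ne h.onX
  have hji : j ≠ i1 := by
    rintro rfl
    exact hi1 hj'
  have hz' : ∀ i, uu ℓ y i = 0 → uu ℓ y' i = 0 := by
    intro i hi
    by_contra h0
    exact h.ne_zero i h0 hi
  let e0 : Fin q → ℤ := Pi.single j 1 - Pi.single i1 1
  have he0 : ∑ i, e0 i = 0 := by simp [e0]
  obtain ⟨a, ha, c, hc⟩ := hr (Fin.cons e0 e) (by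
    intro b
    refine Fin.cases ?_ (fun b => ?_) b
    · rw [Fin.cons_zero]
      exact he0
    · rw [Fin.cons_succ]
      exact he b) (by
    intro b i hi
    refine Fin.cases ?_ (fun b => ?_) b
    · rw [Fin.cons_zero]
      have h1 : i ≠ j := by
        rintro rfl
        exact hj hi
      have h2 : i ≠ i1 := by
        rintro rfl
        exact hi1 (hz' i hi)
      simp [e0, h1, h2]
    · rw [Fin.cons_succ]
      exact hz b i (hz' i hi))
  have hE : ∀ i, ∑ b, a b * (Fin.cons e0 e : Fin (t + 1 + 1) → Fin q → ℤ) b i =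
      a 0 * e0 i + ∑ b : Fin (t + 1), a b.succ * e b i := by
    intro i
    rw [Fin.sum_univ_succ]
    simp
  simp only [hE] at hc
  set E : Fin q → ℤ := fun i => ∑ b : Fin (t + 1), a b.succ * e b i with hEdef
  have hE0 : ∑ i, E i = 0 := by
    rw [hEdef, Finset.sum_comm]
    exact Finset.sum_eq_zero fun b _ => by rw [← Finset.mul_sum, he b, mul_zero]
  have hEz : ∀ i, uu ℓ y' i = 0 → E i = 0 := fun i hi =>
    Finset.sum_eq_zero fun b _ => by rw [hz b i hi, mul_zero]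
  have hm := h.mono E hE0 hEz
  -- the product
  have hprod : ∏ i, uu ℓ y i ^ (a 0 * e0 i + E i) =
      (uu ℓ y j / uu ℓ y i1) ^ a 0 * ∏ i, uu ℓ y i ^ E i := by
    have h1 : ∀ i, uu ℓ y i ^ (a 0 * e0 i + E i) = (uu ℓ y i ^ e0 i) ^ a 0 * uu ℓ y i ^ E i := by
      intro i
      rcases eq_or_ne (uu ℓ y i) 0 with h0 | h0
      · have h1 : i ≠ j := by
          rintro rfl
          exact hj h0
        have h2 : i ≠ i1 := by
          rintro rfl
          exact hi1 (hz' i h0)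
        have h3 : e0 i = 0 := by simp [e0, h1, h2]
        rw [h3, hEz i (hz' i h0)]
        simp
      · rw [zpow_add₀ h0, mul_comm (a 0), zpow_mul]
    simp only [h1, Finset.prod_mul_distrib]
    congr 1
    rw [Finset.prod_zpow]
    congr 1
    rw [Finset.prod_eq_mul j i1 hji]
    · simp [e0, hji, Ne.symm hji, div_eq_mul_inv]
    · intro i _ hi
      simp [e0, hi.1, hi.2]
    · intro h
      exact absurd (Finset.mem_univ _) h
    · intro h
      exact absurd (Finset.mem_univ _) h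
  have hprod' : ∏ i, uu ℓ y i ^ (a 0 * e0 i + E i) = algebraMap F κ c := hc
  rw [hprod] at hprod'
  have hi10 := h.ne_zero i1 hi1
  have hd0 : uu ℓ y j / uu ℓ y i1 ≠ 0 := div_ne_zero hj hi10
  have hm0 : ∏ i, uu ℓ y i ^ E i ≠ 0 := by
    intro h0
    rw [h0, map_zero] at hm
    exact zero_ne_one hm.2.2
  have hc0 : c ≠ 0 := by
    rintro rfl
    rw [map_zero] at hprod'
    exact mul_ne_zero (zpow_ne_zero _ hd0) hm0 hprod'
  have hvc : P.O.valuation (algebraMap F κ c) = 1 := by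
    apply le_antisymm ((P.O.valuation_le_one_iff _).mpr (P.h c))
    have h1 := (P.O.valuation_le_one_iff _).mpr (P.h c⁻¹)
    rw [map_inv₀, map_inv₀] at h1
    exact (inv_le_one₀ (zero_lt_iff.mpr ((Valuation.ne_zero_iff _).mpr
      ((map_ne_zero (algebraMap F κ)).mpr hc0)))).mp h1
  have hlt : P.O.valuation (uu ℓ y j / uu ℓ y i1) < 1 := by
    rw [map_div₀, div_lt_one₀ (zero_lt_iff.mpr ((Valuation.ne_zero_iff _).mpr hi10)), h.val_eq i1 hi1]
    exact h.val_lt j hj'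
  have ha0 : a 0 = 0 := by
    by_contra hne
    have h1 := congrArg P.O.valuation hprod'
    rw [map_mul, hm.2.2, mul_one, hvc, map_zpow₀] at h1
    rcases lt_or_gt_of_ne hne with h | h
    · obtain ⟨m, hm⟩ := Int.eq_negSucc_of_lt_zero h
      rw [hm, zpow_negSucc, inv_eq_one] at h1
      exact (pow_lt_one₀ zero_le hlt (Nat.succ_ne_zero m)).ne h1
    · obtain ⟨m, hm⟩ := Int.eq_ofNat_of_zero_le h.le
      rw [hm, zpow_natCast] at h1
      refine (pow_lt_one₀ zero_le hlt ?_).ne h1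
      rintro rfl
      rw [hm] at h
      exact lt_irrefl _ h
  rw [ha0, zpow_zero, one_mul] at hprod'
  refine ⟨fun b => a b.succ, ?_, c, ?_⟩
  · intro h0
    apply ha
    funext b
    refine Fin.cases ha0 (fun b => ?_) b
    exact congrFun h0 b
  · show ∏ i, uu ℓ y' i ^ E i = _
    rw [← hm.2.1, hprod', P.res_cst]

/-- the step -/
theorem step (I : Set (MvPolynomial (Fin (N + 1)) F)) (hI : Homog I) (ℓ : Fin q → Fin (N + 1) → F)
    (hGP : GP F I ℓ n) (hq : r * n + 1 ≤ q) (s0 : Fin r) (A : Finset (Fin q)) (y : Fin r → Fin (N + 1) → κ)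
    (h : St I ℓ n s0 A y) (hA : A.card < n) (j : Fin q) (hj : uu ℓ y j ≠ 0) :
    ∃ (P : Pla F κ) (y' : Fin r → Fin (N + 1) → P.K) (S : κ), RedData P I ℓ y y' S ∧
      j ∉ A ∧ St I ℓ n s0 (insert j A) y' := by
  classical
  have hr : 1 ≤ r := Nat.one_le_iff_ne_zero.mpr (by
    rintro rfl
    exact s0.elim0)
  have hjA : j ∉ A := fun hjA => hj (uu_eq_zero ℓ y j s0 (h.onA j hjA))
  have hqn : n + 1 ≤ q := le_trans (by nlinarith) hq
  obtain ⟨P, hP⟩ := exists_place I hI ℓ hGP hqn (y s0) (h.ne s0) (h.onX s0) A hA h.onA h.gen j hjA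
  obtain ⟨y', S, hR, hs⟩ := exists_red P I hI ℓ y h.ne h.onX
  obtain ⟨s, h1, h2, h3, h4, h5⟩ := hs s0
  have h6 := hP s h1 h2 h3 h4
  rw [← h5] at h6
  refine ⟨P, y', S, hR, hjA, hR.ne, hR.onX, h6.1, h6.2, ?_⟩
  have h7 : n - (insert j A).card + 1 = n - A.card := by
    rw [Finset.card_insert_of_notMem hjA]
    omega
  apply rank_drop hR hGP hq _ (h7 ▸ h.rank) j hj
  exact uu_eq_zero ℓ y' j s0 (h6.1 j (Finset.mem_insert_self j A))

/-- the chain -/
theorem chain {F : Type u} [Field F] {N n q r : ℕ} (I : Set (MvPolynomial (Fin (N + 1)) F)) (hI : Homog I)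
    (ℓ : Fin q → Fin (N + 1) → F) (hGP : GP F I ℓ n) (hq : r * n + 1 ≤ q) (s0 : Fin r) {Ω : Type u}
    [Field Ω] [Algebra F Ω] (y : Fin r → Fin (N + 1) → Ω) (h : St I ℓ n s0 ∅ y) (m : ℕ) (hm : m ≤ n) :
    ∃ (κ : Type u) (_ : Field κ) (_ : Algebra F κ) (A : Finset (Fin q)) (y : Fin r → Fin (N + 1) → κ),
      A.card = m ∧ St I ℓ n s0 A y := by
  classical
  induction m with
  | zero => exact ⟨Ω, _, _, ∅, y, rfl, h⟩
  | succ m ih =>
    obtain ⟨κ, hκ, hFκ, A, y, hA, hst⟩ := ih (by omega)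
    obtain ⟨j, hj⟩ := exists_nonzero I ℓ hGP hq y hst.ne hst.onX
    obtain ⟨P, y', S, -, hjA, hst'⟩ := step I hI ℓ hGP hq s0 A y hst (by omega) j hj
    exact ⟨P.K, inferInstance, inferInstance, insert j A, y', by
      rw [Finset.card_insert_of_notMem hjA, hA], hst'⟩

end Pool.Agent.GS
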