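import Pool.Agent.Helper77.GS.Cl
import Pool.Agent.Helper77.GS.Red

/-!
# GS, block C, part 1: places of a point of `X`
-/

set_option autoImplicit false

namespace Pool.Agent.GS

open MvPolynomial

universe u

variable {F κ : Type u} [Field F] [Field κ] [Algebra F κ] {N n q : ℕ}

theorem lin_mem (P : Pla F κ) (ℓ : Fin (N + 1) → F) (a : Fin (N + 1)) : algebraMap F κ (ℓ a) ∈ P.O := P.h _

theorem lin_red (P : Pla F κ) (ℓ : Fin (N + 1) → F) (y : Fin (N + 1) → κ) (s : κ)
    (h : ∀ ℓ : Fin (N + 1) → κ, (∀ a, ℓ a ∈ P.O) → dt ℓ y / s ∈ P.O ∧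
        P.res (dt ℓ y / s) = dt (fun a => P.res (ℓ a)) fun a => P.res (y a / s)) :
    lin ℓ y / s ∈ P.O ∧ P.res (lin ℓ y / s) = lin ℓ fun a => P.res (y a / s) := by
  have h1 := h (fun a => algebraMap F κ (ℓ a)) fun a => P.h _
  refine ⟨h1.1, ?_⟩
  rw [lin_eq_dt, h1.2, lin_eq_dt]
  unfold dt
  exact Finset.sum_congr rfl fun a _ => by
    show P.res (algebraMap F κ (ℓ a)) * _ = algebraMap F P.K (ℓ a) * _
    rw [P.res_cst]

/-- finite projection: the ratios of the coordinates are algebraic over the ratios of `n + 1` hyperplanes -/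
theorem fin_proj (I : Set (MvPolynomial (Fin (N + 1)) F)) (hI : Homog I) (ℓ : Fin q → Fin (N + 1) → F)
    (hGP : GP F I ℓ n) (y : Fin (N + 1) → κ) (hy : y ≠ 0) (hX : OnX I y) (A T : Finset (Fin q))
    (hAT : Disjoint A T) (hc : n + 1 ≤ A.card + T.card) (hA : ∀ h ∈ A, lin (ℓ h) y = 0)
    (h0 : Fin q) (h0T : h0 ∈ T) (hy0 : lin (ℓ h0) y ≠ 0) :
    Rat y ⊆ cl F ((fun h => lin (ℓ h) y / lin (ℓ h0) y) '' T) := by
  classical
  set S : Set κ := (fun h => lin (ℓ h) y / lin (ℓ h0) y) '' T with hS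
  have key : ∀ a, y a / lin (ℓ h0) y ∈ cl F S := by
    intro a
    set W : Set κ := Set.range (algebraMap F κ) ∪ S with hW
    have h1 : y a / lin (ℓ h0) y ∈ (integralClosure (Subring.closure W) κ).toSubring := by
      rw [← iInf_valuationSubring_superset, Subring.mem_iInf]
      rintro ⟨O, hO⟩
      let P : Pla F κ := ⟨O, fun c => hO (Or.inl ⟨c, rfl⟩)⟩
      have hSO : ∀ h ∈ T, lin (ℓ h) y / lin (ℓ h0) y ∈ P.O := fun h hh => hO (Or.inr ⟨h, hh, rfl⟩)
      obtain ⟨s, hs, hsO, hs0, hsl, hsX⟩ := red P y hy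
      have h2 : P.res (lin (ℓ h0) y / s) ≠ 0 := by
        intro h2
        have h3 := hGP P.K (fun a => P.res (y a / s)) (hsX I hI hX) hs0 (A ∪ T) (by
          intro h hh
          rw [← (lin_red P (ℓ h) y s hsl).2]
          rcases Finset.mem_union.mp hh with hh | hh
          · rw [hA h hh, zero_div, P.res_zero]
          · have h4 : lin (ℓ h) y / s = (lin (ℓ h) y / lin (ℓ h0) y) * (lin (ℓ h0) y / s) := by
              field_simp
            rw [h4, P.res_mul (hSO h hh) (lin_red P (ℓ h0) y s hsl).1, h2, mul_zero])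
        rw [Finset.card_union_of_disjoint hAT] at h3
        omega
      rw [P.res_ne_zero (lin_red P (ℓ h0) y s hsl).1, map_div₀] at h2
      have hvs : P.O.valuation s ≠ 0 := (Valuation.ne_zero_iff _).mpr hs
      rw [div_eq_one_iff_eq hvs] at h2
      show y a / lin (ℓ h0) y ∈ P.O
      rw [← P.O.valuation_le_one_iff, map_div₀, h2, ← map_div₀, P.O.valuation_le_one_iff]
      exact hsO a
    rw [mem_cl]
    obtain ⟨P, hPm, hP⟩ := h1
    have h2 : Subring.closure W ≤ (Algebra.adjoin F S).toSubring := by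
      rw [Subring.closure_le]
      rintro _ (⟨c, rfl⟩ | hp)
      · exact (Algebra.adjoin F S).algebraMap_mem c
      · exact Algebra.subset_adjoin hp
    have h3 : IsIntegral (Algebra.adjoin F S) (y a / lin (ℓ h0) y) := by
      refine ⟨P.map (Subring.inclusion h2), hPm.map _, ?_⟩
      rw [Polynomial.eval₂_map]
      exact hP
    exact h3.isAlgebraic
  rintro _ ⟨a, b, rfl⟩
  have h1 := cl_div (key a) (key b)
  rcases eq_or_ne (y b) 0 with hb | hb
  · rw [hb, div_zero]
    exact cl_zero _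
  · have h2 : y a / lin (ℓ h0) y / (y b / lin (ℓ h0) y) = y a / y b := by
      field_simp
    rwa [h2] at h1

/-- some hyperplane of a set which is large enough does not contain the point -/
theorem exists_ne (I : Set (MvPolynomial (Fin (N + 1)) F)) (ℓ : Fin q → Fin (N + 1) → F)
    (hGP : GP F I ℓ n) (y : Fin (N + 1) → κ) (hy : y ≠ 0) (hX : OnX I y) (A T : Finset (Fin q))
    (hAT : Disjoint A T) (hc : n + 1 ≤ A.card + T.card) (hA : ∀ h ∈ A, lin (ℓ h) y = 0) :
    ∃ h ∈ T, lin (ℓ h) y ≠ 0 := by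
  classical
  by_contra hcon
  push Not at hcon
  have h3 := hGP κ y hX hy (A ∪ T) (by
    intro h hh
    rcases Finset.mem_union.mp hh with hh | hh
    · exact hA h hh
    · exact hcon h hh)
  rw [Finset.card_union_of_disjoint hAT] at h3
  omega

theorem exists_T (A : Finset (Fin q)) (t : ℕ) (h : A.card + t ≤ q) :
    ∃ T : Finset (Fin q), Disjoint A T ∧ T.card = t := by
  classical
  have h1 : t ≤ Aᶜ.card := by
    rw [Finset.card_compl, Fintype.card_fin]
    omega
  obtain ⟨T, hT, hTc⟩ := Finset.exists_subset_card_eq h1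
  refine ⟨T, ?_, hTc⟩
  rw [Finset.disjoint_left]
  intro a ha haT
  have := hT haT
  rw [Finset.mem_compl] at this
  exact this ha

/-- a point on the hyperplanes of `A` -/
theorem rk_le (I : Set (MvPolynomial (Fin (N + 1)) F)) (hI : Homog I) (ℓ : Fin q → Fin (N + 1) → F)
    (hGP : GP F I ℓ n) (hq : n + 1 ≤ q) (y : Fin (N + 1) → κ) (hy : y ≠ 0) (hX : OnX I y)
    (A : Finset (Fin q)) (hAn : A.card ≤ n) (hA : ∀ h ∈ A, lin (ℓ h) y = 0) :
    rk F (Rat y) ≤ (n - A.card : ℕ) := by
  classical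
  obtain ⟨T, hAT, hTc⟩ := exists_T A (n + 1 - A.card) (by omega)
  obtain ⟨h0, h0T, hy0⟩ := exists_ne I ℓ hGP y hy hX A T hAT (by omega) hA
  have h1 := fin_proj I hI ℓ hGP y hy hX A T hAT (by omega) hA h0 h0T hy0
  have h2 : ((fun h => lin (ℓ h) y / lin (ℓ h0) y) '' T : Set κ) ⊆
      cl F ((fun h => lin (ℓ h) y / lin (ℓ h0) y) '' (T.erase h0 : Finset (Fin q))) := by
    rintro _ ⟨h, hh, rfl⟩
    rcases eq_or_ne h h0 with rfl | hne
    · have h3 : lin (ℓ h) y / lin (ℓ h) y = 1 := div_self hy0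
      show lin (ℓ h) y / lin (ℓ h) y ∈ _
      rw [h3]
      exact cl_one _
    · exact subset_cl _ ⟨h, Finset.mem_coe.mpr (Finset.mem_erase.mpr ⟨hne, hh⟩), rfl⟩
  refine (rk_le_of_subset (h1.trans (cl_subset h2))).trans ?_
  refine (rk_image_le _ _).trans ?_
  rw [Finset.card_erase_of_mem h0T, hTc]
  apply le_of_eq
  congr 1
  omega

/-- A place which reduces `y` to a generic point of the intersection with the hyperplane `j`. -/
theorem exists_place (I : Set (MvPolynomial (Fin (N + 1)) F)) (hI : Homog I) (ℓ : Fin q → Fin (N + 1) → F)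
    (hGP : GP F I ℓ n) (hq : n + 1 ≤ q) (y : Fin (N + 1) → κ) (hy : y ≠ 0) (hX : OnX I y)
    (A : Finset (Fin q)) (hAn : A.card < n) (hA : ∀ h ∈ A, lin (ℓ h) y = 0)
    (hgen : ((n - A.card : ℕ) : ℕ∞) ≤ rk F (Rat y)) (j : Fin q) (hj : j ∉ A) :
    ∃ P : Pla F κ, ∀ s : κ, s ≠ 0 → (∀ a, y a / s ∈ P.O) → (fun a => P.res (y a / s)) ≠ 0 →
      (∀ ℓ : Fin (N + 1) → κ, (∀ a, ℓ a ∈ P.O) → dt ℓ y / s ∈ P.O ∧
        P.res (dt ℓ y / s) = dt (fun a => P.res (ℓ a)) fun a => P.res (y a / s)) →
      (∀ h ∈ insert j A, lin (ℓ h) (fun a => P.res (y a / s)) = 0) ∧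
      ((n - (insert j A).card : ℕ) : ℕ∞) ≤ rk F (Rat fun a => P.res (y a / s)) := by
  classical
  have hne : ∀ h, h ∉ A → lin (ℓ h) y ≠ 0 := by
    intro h hh h0
    have h1 := rk_le I hI ℓ hGP hq y hy hX (insert h A) (by
      rw [Finset.card_insert_of_notMem hh]
      omega) (by
      intro g hg
      rcases Finset.mem_insert.mp hg with rfl | hg
      · exact h0
      · exact hA g hg)
    have h2 := hgen.trans h1
    rw [Finset.card_insert_of_notMem hh] at h2
    have h3 : n - A.card ≤ n - (A.card + 1) := by exact_mod_cast h2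
    omega
  obtain ⟨T, hAT, hTc⟩ := exists_T (insert j A) (n - A.card) (by
    rw [Finset.card_insert_of_notMem hj]
    omega)
  have hjT : j ∉ T := fun h => (Finset.disjoint_left.mp hAT) (Finset.mem_insert_self j A) h
  have hATd : Disjoint A T := hAT.mono_left (Finset.subset_insert j A)
  have hTA : ∀ h ∈ T, h ∉ A := fun h hh hA => (Finset.disjoint_left.mp hATd) hA hh
  obtain ⟨h0, h0T⟩ : T.Nonempty := by
    rw [← Finset.card_pos]
    omega
  have hy0 := hne h0 (hTA h0 h0T)
  set θ : Fin q → κ := fun h => lin (ℓ h) y / lin (ℓ h0) y with hθ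
  have hθ0 : ∀ h, h ∉ A → θ h ≠ 0 := fun h hh => div_ne_zero (hne h hh) hy0
  set S : Set κ := θ '' (T.erase h0 : Finset (Fin q)) with hS
  -- the rank
  have hAjT : Disjoint A (insert j T) := by
    rw [Finset.disjoint_insert_right]
    exact ⟨hj, hATd⟩
  have h1 := fin_proj I hI ℓ hGP y hy hX A (insert j T) hAjT (by
    rw [Finset.card_insert_of_notMem hjT]
    omega) hA h0 (Finset.mem_insert_of_mem h0T) hy0
  have h2 : (θ '' (insert j T : Finset (Fin q)) : Set κ) ⊆ cl F (insert (θ j) S) := by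
    rintro _ ⟨h, hh, rfl⟩
    rw [Finset.mem_coe, Finset.mem_insert] at hh
    rcases hh with rfl | hh
    · exact subset_cl _ (Set.mem_insert _ _)
    · rcases eq_or_ne h h0 with rfl | hne
      · have h3 : θ h = 1 := div_self hy0
        rw [h3]
        exact cl_one _
      · exact subset_cl _ (Set.mem_insert_of_mem _ ⟨h, Finset.mem_coe.mpr (Finset.mem_erase.mpr ⟨hne, hh⟩), rfl⟩)
  have h3 : ((n - A.card : ℕ) : ℕ∞) ≤ rk F (insert (θ j) S) :=
    hgen.trans (rk_le_of_subset (h1.trans (cl_subset h2)))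
  have hSc : rk F S ≤ (n - A.card - 1 : ℕ) := by
    refine (rk_image_le _ _).trans ?_
    rw [Finset.card_erase_of_mem h0T, hTc]
  have hX0 : θ j ∉ cl F S := by
    intro h4
    have h5 : insert (θ j) S ⊆ cl F S := Set.insert_subset h4 (subset_cl S)
    have h6 := h3.trans ((rk_le_of_subset h5).trans hSc)
    have h7 : n - A.card ≤ n - A.card - 1 := by exact_mod_cast h6
    omega
  have hSr : ((n - A.card - 1 : ℕ) : ℕ∞) ≤ rk F S := by
    have h4 : rk F (insert (θ j) S) ≤ rk F S + 1 :=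
      (AlgebraicIndependent.matroid F κ).eRk_insert_le_add_one _ _
    have h5 := h3.trans h4
    have h6 : ((n - A.card : ℕ) : ℕ∞) = ((n - A.card - 1 : ℕ) : ℕ∞) + 1 := by
      have : n - A.card = (n - A.card - 1) + 1 := by omega
      rw [this]
      rfl
    rw [h6] at h5
    exact (ENat.add_le_add_iff_right (by simp)).mp h5
  -- the valuation ring
  obtain ⟨O, hO, hXO⟩ : ∃ O : ValuationSubring κ, (∀ z ∈ cl F S, z ∈ O) ∧ (θ j)⁻¹ ∉ O := by
    by_contra hcon
    push Not at hcon
    apply hX0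
    have h4 : (θ j)⁻¹ ∈ (integralClosure (Subring.closure (cl F S)) κ).toSubring := by
      rw [← iInf_valuationSubring_superset, Subring.mem_iInf]
      rintro ⟨O, hO⟩
      exact hcon O fun z hz => hO hz
    rw [← inv_inv (θ j)]
    apply cl_inv
    rw [← cl_cl, mem_cl]
    obtain ⟨p, hpm, hp⟩ := h4
    have h5 : Subring.closure (cl F S) ≤ (Algebra.adjoin F (cl F S)).toSubring := by
      rw [Subring.closure_le]
      exact Algebra.subset_adjoin
    have h6 : IsIntegral (Algebra.adjoin F (cl F S)) (θ j)⁻¹ := by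
      refine ⟨p.map (Subring.inclusion h5), hpm.map _, ?_⟩
      rw [Polynomial.eval₂_map]
      exact hp
    exact h6.isAlgebraic
  let P : Pla F κ := ⟨O, fun c => hO _ (cl_cst _ c)⟩
  have hvj : P.O.valuation (θ j) < 1 := by
    by_contra h4
    push Not at h4
    apply hXO
    rw [← O.valuation_le_one_iff, map_inv₀]
    exact inv_le_one_of_one_le₀ h4
  refine ⟨P, fun s hs hsO hs0 hsl => ?_⟩
  have hXy := hX
  have hvs : P.O.valuation s ≠ 0 := (Valuation.ne_zero_iff _).mpr hs
  have hθO : ∀ h ∈ T, θ h ∈ P.O := by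
    intro h hh
    rcases eq_or_ne h h0 with rfl | hne
    · have h3 : θ h = 1 := div_self hy0
      rw [h3]
      exact P.O.one_mem
    · exact hO _ (subset_cl _ ⟨h, Finset.mem_coe.mpr (Finset.mem_erase.mpr ⟨hne, hh⟩), rfl⟩)
  have hjO : θ j ∈ P.O := (P.O.valuation_le_one_iff _).mp hvj.le
  have hlin : ∀ h, lin (ℓ h) y / s = θ h * (lin (ℓ h0) y / s) := by
    intro h
    simp only [hθ]
    field_simp
  have hr0 : P.res (lin (ℓ h0) y / s) ≠ 0 := by
    intro h4
    have h5 := hGP P.K (fun a => P.res (y a / s)) ?_ hs0 (A ∪ insert j T) (by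
      intro h hh
      rw [← (lin_red P (ℓ h) y s hsl).2]
      rcases Finset.mem_union.mp hh with hh | hh
      · rw [hA h hh, zero_div, P.res_zero]
      · have h6 : θ h ∈ P.O := by
          rcases Finset.mem_insert.mp hh with rfl | hh
          · exact hjO
          · exact hθO h hh
        rw [hlin, P.res_mul h6 (lin_red P (ℓ h0) y s hsl).1, h4, mul_zero])
    · rw [Finset.card_union_of_disjoint hAjT, Finset.card_insert_of_notMem hjT] at h5
      omega
    · intro f hf
      have h7 : OnX I fun a => y a / s := by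
        have := onX_smul I hI y hX s⁻¹
        have h2 : (fun a => s⁻¹ * y a) = fun a => y a / s := by
          funext a
          rw [div_eq_mul_inv, mul_comm]
        rwa [h2] at this
      rw [← (P.res_aeval f _ hsO).2, h7 f hf, P.res_zero]
  constructor
  · intro h hh
    rw [← (lin_red P (ℓ h) y s hsl).2]
    rcases Finset.mem_insert.mp hh with rfl | hh
    · rw [hlin, P.res_mul hjO (lin_red P (ℓ h0) y s hsl).1, (P.res_eq_zero hjO).mpr hvj, zero_mul]
    · rw [hA h hh, zero_div, P.res_zero]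
  · rw [Finset.card_insert_of_notMem hj]
    have h4 := hSr.trans (rk_res P S hO)
    have h5 : n - (A.card + 1) = n - A.card - 1 := by omega
    rw [h5]
    refine h4.trans (rk_le_of_subset ?_)
    rintro _ ⟨_, ⟨h, hh, rfl⟩, rfl⟩
    have hhT : h ∈ T := Finset.mem_of_mem_erase (Finset.mem_coe.mp hh)
    obtain ⟨c, hc⟩ : ∃ c, P.res (y c / s) ≠ 0 := by
      by_contra hcon
      push Not at hcon
      exact hs0 (funext hcon)
    have hL : ∀ g, lin (ℓ g) (fun a => P.res (y a / s)) / P.res (y c / s) ∈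
        cl F (Rat fun a => P.res (y a / s)) := by
      intro g
      have h6 : lin (ℓ g) (fun a => P.res (y a / s)) / P.res (y c / s) =
          ∑ a, algebraMap F P.K (ℓ g a) * (P.res (y a / s) / P.res (y c / s)) := by
        unfold lin
        rw [Finset.sum_div]
        exact Finset.sum_congr rfl fun a _ => mul_div_assoc _ _ _
      rw [h6]
      exact cl_sum _ _ fun a _ => cl_mul (cl_cst _ _) (subset_cl _ ⟨a, c, rfl⟩)
    have h7 : P.res (θ h) = (lin (ℓ h) (fun a => P.res (y a / s)) / P.res (y c / s)) /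
        (lin (ℓ h0) (fun a => P.res (y a / s)) / P.res (y c / s)) := by
      rw [div_div_div_cancel_right₀ hc, ← (lin_red P (ℓ h) y s hsl).2, ← (lin_red P (ℓ h0) y s hsl).2,
        hlin h, P.res_mul (hθO h hhT) (lin_red P (ℓ h0) y s hsl).1, mul_div_cancel_right₀ _ hr0]
    rw [h7]
    exact cl_div (hL h) (hL h0)

end Pool.Agent.GS
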