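import Pool.Agent.Helper77.GS.Defs
import Pool.Agent.Helper16.SL.Defs

/-!
# GS: the statements of the blocks (skeleton; not to be imported by finished files)
-/

set_option autoImplicit false

namespace Pool.Agent.GS.Stmt

open Pool.Agent.GS MvPolynomial

universe u

/-! ## Block E (helper61/97): elimination -/

theorem elim {k : Type u} [Field k] {σ τ : Type} (E : Set (MvPolynomial (σ ⊕ τ) k))
    (h : ∀ (L : Type u) [Field L] [Algebra k L] (s : σ → L) (t : τ → L), AlgebraicIndependent k s →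
      ¬ ∀ f ∈ E, aeval (Sum.elim s t) f = 0) :
    ∃ Φ : MvPolynomial σ k, Φ ≠ 0 ∧ ∀ (K : Type u) [Field K] [Algebra k K] (s : σ → K) (t : τ → K),
      (∀ f ∈ E, aeval (Sum.elim s t) f = 0) → aeval s Φ = 0 := by
  sorry

/-! ## Block P (helper97): at most `n` generic hyperplanes at a point; and for an open set of linear forms -/

theorem gp_generic {k : Type u} [Field k] {N n q : ℕ} (I : Set (MvPolynomial (Fin (N + 1)) k))
    (hI : Homog I) (hD : Dim k I n) :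
    ∃ Φ : MvPolynomial (Fin q × Fin (N + 1)) k, Φ ≠ 0 ∧ ∀ ℓ : Fin q → Fin (N + 1) → k,
      aeval (fun p : Fin q × Fin (N + 1) => ℓ p.1 p.2) Φ ≠ 0 → GP k I ℓ n := by
  sorry

/-! ## Block W (helper97): hyperplanes in special position. `ℓ` ordinary (`g` not in `ι V`), `ℓ (ι i) = ℓ i + ∑ μ_(i,a) ℓ a`. -/

theorem special {k K : Type u} [Field k] [Field K] [Algebra k K] {N n q r : ℕ}
    (I : Set (MvPolynomial (Fin (N + 1)) k)) (hD : Dim k I n) (hn : 2 ≤ n) (hq : r * n + 2 ≤ q)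
    (A V : Finset (Fin q)) (ι : Fin q → Fin q) (hc : Comb n A V ι)
    (ℓ : Fin q → Fin (N + 1) → K) (μ : Fin q → Fin q → K)
    (hind : AlgebraicIndependent k (Sum.elim
      (fun p : {g : Fin q // ∀ i ∈ V, g ≠ ι i} × Fin (N + 1) => ℓ p.1 p.2)
      (fun p : {i : Fin q // i ∈ V} × {a : Fin q // a ∈ A} => μ p.1 p.2)))
    (hℓ : ∀ i ∈ V, ∀ j, ℓ (ι i) j = ℓ i j + ∑ a ∈ A, μ i a * ℓ a j)
    (x : Fin r → Fin (N + 1) → K) (hx : ∀ σ, x σ ≠ 0) (hX : ∀ σ, OnX I (x σ)) :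
    ∃ g, ∀ σ, dt (ℓ g) (x σ) ≠ 0 := by
  sorry

/-! ## Block O (helper17): the valuation ring with special residues -/

theorem place {k L : Type u} [Field k] [Field L] [Algebra k L] {N n q : ℕ}
    (A V : Finset (Fin q)) (ι : Fin q → Fin q) (hc : Comb n A V ι)
    (ℓ : Fin q → Fin (N + 1) → L)
    (hind : AlgebraicIndependent k (fun p : Fin q × Fin (N + 1) => ℓ p.1 p.2)) :
    ∃ (L' : Type u) (_ : Field L') (_ : Algebra L L') (_ : Algebra k L') (_ : IsScalarTower k L L')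
      (P : Pla k L') (μ : Fin q → Fin q → P.K), (∀ g j, algebraMap L L' (ℓ g j) ∈ P.O) ∧
      AlgebraicIndependent k (Sum.elim
        (fun p : {g : Fin q // ∀ i ∈ V, g ≠ ι i} × Fin (N + 1) => P.res (algebraMap L L' (ℓ p.1 p.2)))
        (fun p : {i : Fin q // i ∈ V} × {a : Fin q // a ∈ A} => μ p.1 p.2)) ∧
      ∀ i ∈ V, ∀ j, P.res (algebraMap L L' (ℓ (ι i) j)) =
        P.res (algebraMap L L' (ℓ i j)) + ∑ a ∈ A, μ i a * P.res (algebraMap L L' (ℓ a j)) := by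
  sorry

/-! ## Block R (helper77): reduction of a point -/

theorem red {k K : Type u} [Field k] [Field K] [Algebra k K] {N : ℕ} (P : Pla k K)
    (y : Fin (N + 1) → K) (hy : y ≠ 0) :
    ∃ s : K, s ≠ 0 ∧ (∀ a, y a / s ∈ P.O) ∧ (fun a => P.res (y a / s)) ≠ 0 ∧
      (∀ ℓ : Fin (N + 1) → K, (∀ a, ℓ a ∈ P.O) → dt ℓ y / s ∈ P.O ∧
        P.res (dt ℓ y / s) = dt (fun a => P.res (ℓ a)) fun a => P.res (y a / s)) ∧
      ∀ I : Set (MvPolynomial (Fin (N + 1)) k), Homog I → OnX I y → OnX I fun a => P.res (y a / s) := by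
  sorry

/-! ## Block G (helper97, from `special`, `place`, `red`): generic linear forms are not bad -/

theorem not_bad {k L : Type u} [Field k] [Field L] [Algebra k L] {N n q r : ℕ}
    (I : Set (MvPolynomial (Fin (N + 1)) k)) (hI : Homog I) (hD : Dim k I n) (hn : 2 ≤ n)
    (hq : r * n + 2 ≤ q) (A V : Finset (Fin q)) (ι : Fin q → Fin q) (hc : Comb n A V ι)
    (ℓ : Fin q → Fin (N + 1) → L)
    (hind : AlgebraicIndependent k (fun p : Fin q × Fin (N + 1) => ℓ p.1 p.2)) :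
    ¬ Bad I r A V ι ℓ := by
  sorry

/-! ## Block F (helper61): bad linear forms lie on a hypersurface -/

theorem bad_poly {k : Type u} [Field k] {N n q : ℕ} (r : ℕ)
    (I : Set (MvPolynomial (Fin (N + 1)) k)) (hI : Homog I) (hD : Dim k I n) (hn : 2 ≤ n)
    (hq : r * n + 2 ≤ q) :
    ∃ Φ : MvPolynomial (Fin q × Fin (N + 1)) k, Φ ≠ 0 ∧
      ∀ (K : Type u) [Field K] [Algebra k K] (ℓ : Fin q → Fin (N + 1) → K) (A V : Finset (Fin q))
        (ι : Fin q → Fin q), Comb n A V ι → Bad I r A V ι ℓ →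
        aeval (fun p : Fin q × Fin (N + 1) => ℓ p.1 p.2) Φ = 0 := by
  sorry

/-! ## Block N (helper36): Nullstellensatz -/

theorem nst {F K : Type u} [Field F] [IsAlgClosed F] [Field K] [Algebra F K] {τ : Type} [Finite τ]
    (t : τ → K) : ∃ t' : τ → F, ∀ f : MvPolynomial τ F, aeval t f = 0 → aeval t' f = 0 := by
  sorry

/-! ## Block C (helper77, helper36): the chain and the bottom -/

theorem core {F Ω : Type u} [Field F] [IsAlgClosed F] [Field Ω] [Algebra F Ω] {N n q r : ℕ}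
    (I : Set (MvPolynomial (Fin (N + 1)) F)) (hI : Homog I) (hn : 1 ≤ n) (hq : r * n + 2 ≤ q)
    (ℓ : Fin q → Fin (N + 1) → F) (hGP : GP F I ℓ n) (s0 : Fin r) (y : Fin r → Fin (N + 1) → Ω)
    (hX : ∀ σ, OnX I (y σ)) (hu : ∀ i, uu ℓ y i ≠ 0) (hgen : (n : ℕ∞) ≤ rk F (Rat (y s0)))
    (hrank : Rk F (uu ℓ y) n) :
    ∃ (A V : Finset (Fin q)) (ι : Fin q → Fin q), Comb n A V ι ∧ Bad I r A V ι ℓ := by
  sorry

/-! ## Block S (helper16): the constants -/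

theorem init {k Ω₀ : Type u} [Field k] [Field Ω₀] [Algebra k Ω₀] (D : SL.Dat k Ω₀) {N n q r : ℕ}
    (I : Set (MvPolynomial (Fin (N + 1)) k)) (hI : Homog I) (hD : Dim k I n) (hq : r * n + 2 ≤ q)
    (ℓ : Fin q → Fin (N + 1) → k) (hGP : GP k I ℓ n) (s0 : Fin r) (y : Fin r → Fin (N + 1) → Ω₀)
    (hX : ∀ σ, OnX I (y σ)) (hu : ∀ i j, D.U (uu ℓ y i / uu ℓ y j))
    (hgen : (n : ℕ∞) ≤ rk k (Rat (y s0))) :
    ∃ (F Ω : Type u) (_ : Field F) (_ : Field Ω) (_ : Algebra k F) (_ : Algebra F Ω) (_ : Algebra Ω₀ Ω)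
      (_ : Algebra k Ω) (_ : IsScalarTower k F Ω) (_ : IsScalarTower k Ω₀ Ω), IsAlgClosed F ∧
      (n : ℕ∞) ≤ rk F (Rat fun j => algebraMap Ω₀ Ω (y s0 j)) ∧
      Rk F (fun i => algebraMap Ω₀ Ω (uu ℓ y i)) n := by
  sorry

/-! ## Block D (helper64): the dimension of `X`. `𝔭` is the homogeneous prime ideal of the cone over `X`. -/

/-- the homogeneous elements -/
def hom {k : Type u} [Field k] {N : ℕ} (𝔭 : Ideal (MvPolynomial (Fin (N + 1)) k)) :
    Set (MvPolynomial (Fin (N + 1)) k) := {f | f ∈ 𝔭 ∧ ∃ d, f.IsHomogeneous d}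

theorem dim_le {k : Type u} [Field k] {N n : ℕ} (𝔭 : Ideal (MvPolynomial (Fin (N + 1)) k)) [𝔭.IsPrime]
    (h𝔭 : ∀ f ∈ 𝔭, ∀ d, homogeneousComponent d f ∈ 𝔭)
    (hn : Algebra.trdeg k (MvPolynomial (Fin (N + 1)) k ⧸ 𝔭) = n + 1) : Dim k (hom 𝔭) n := by
  sorry

theorem generic_point {k : Type u} [Field k] {N n : ℕ} (𝔭 : Ideal (MvPolynomial (Fin (N + 1)) k)) [𝔭.IsPrime]
    (h𝔭 : ∀ f ∈ 𝔭, ∀ d, homogeneousComponent d f ∈ 𝔭)
    (hn : Algebra.trdeg k (MvPolynomial (Fin (N + 1)) k ⧸ 𝔭) = n + 1)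
    {K : Type u} [Field K] [Algebra k K] (y : Fin (N + 1) → K) (hX : OnX (hom 𝔭) y)
    (hgen : ∀ f : MvPolynomial (Fin (N + 1)) k, (∃ d, f.IsHomogeneous d) → f ∉ 𝔭 → aeval y f ≠ 0) :
    (n : ℕ∞) ≤ rk k (Rat y) := by
  sorry

end Pool.Agent.GS.Stmt
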